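import Pool.Agent.MP_1246c0_nt.H12.SpecN
import Pool.Agent.MP_c481b3_nt.H28K.PntAP
import Pool.Agent.MP_c481b3_nt.H28K.Win

/-! Primes that are five modulo eight in a dyadic window. -/

namespace Pool.Agent.MP_1246c0_nt.H12

open Finset

theorem rowPC : SPC := by
  obtain ⟨c, hc, N, h⟩ := MP_c481b3_nt.H28K.win_of MP_c481b3_nt.H28K.pntAP 8 2 (by norm_num)
    (by norm_num)
  refine ⟨c / 3, by positivity, 2 * N + 4, fun y hy => ?_⟩
  have h1 := h (5 : ZMod 8) (y / 2) (IsUnit.of_mul_eq_one (5 : ZMod 8) (by decide)) (by omega)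
  have h2 : (2 : ℝ) ≤ (y / 2 : ℕ) := by exact_mod_cast (by omega : 2 ≤ y / 2)
  have h3 : ((y / 2 : ℕ) : ℝ) ≤ y := by exact_mod_cast Nat.div_le_self y 2
  have h4 : (y : ℝ) ≤ 3 * (y / 2 : ℕ) := by exact_mod_cast (by omega : y ≤ 3 * (y / 2))
  have h5 : 0 < Real.log (y / 2 : ℕ) := Real.log_pos (by linarith)
  refine le_trans (div_le_div₀ (by positivity) (by nlinarith) h5
    (Real.log_le_log (by linarith) h3)) (h1.trans (Nat.cast_le.2 (card_le_card fun l hl => ?_)))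
  simp only [mem_filter, mem_range] at hl ⊢
  obtain ⟨h6, h7, h8, h9⟩ := hl
  have e : ⌈(2 : ℝ) * (y / 2 : ℕ)⌉₊ = 2 * (y / 2) := by
    rw [← Nat.ceil_natCast (R := ℝ) (2 * (y / 2))]
    push_cast
    rfl
  rw [e] at h6
  refine ⟨by omega, h8, ?_, by omega⟩
  exact (ZMod.natCast_eq_natCast_iff' l 5 8).1 h9

end Pool.Agent.MP_1246c0_nt.H12
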