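import Pool.Agent.MP_1246c0_nt.H12.SpecR

/-! The probability of a chain that starts off the fresh indices. -/

namespace Pool.Agent.MP_1246c0_nt.H12

open Finset Matrix

namespace NG

lemma ind_nonneg (p : Prop) : 0 ≤ ind p := by unfold ind; split_ifs <;> norm_num

lemma ind_le_one (p : Prop) : ind p ≤ 1 := by unfold ind; split_ifs <;> norm_num

lemma ind_pos {p : Prop} (h : p) : ind p = 1 := by unfold ind; rw [if_pos h]

lemma ind_neg {p : Prop} (h : ¬p) : ind p = 0 := by unfold ind; rw [if_neg h]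

open Classical in
lemma nc {α : Type} [Fintype α] (p : α → Prop) :
    Nat.card {x // p x} = (univ.filter p).card := by
  rw [Nat.card_eq_fintype_card, Fintype.card_subtype]

lemma le_nc {α : Type} [Fintype α] (p : α → Prop) (T : Finset α) (h : ∀ x ∈ T, p x) :
    T.card ≤ Nat.card {x // p x} := by
  classical
  rw [nc]
  exact card_le_card fun x hx => mem_filter.2 ⟨mem_univ _, h x hx⟩

/-- union bound -/
lemma ub (hA : SAVG) {M κ : Type} [AddCommGroup M] [Finite M] (A : AddSubgroup M) (q : M → Prop)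
    (p : κ → M → Prop) (T : Finset κ) (c : ℝ) (h1 : ∀ h ∈ A, q h → ∃ x ∈ T, p x h)
    (h2 : ∀ x ∈ T, Ex A (fun h => ind (p x h)) ≤ c) :
    Ex A (fun h => ind (q h)) ≤ T.card * c := by
  calc Ex A (fun h => ind (q h)) ≤ Ex A (fun h => ∑ x ∈ T, ind (p x h)) := by
        refine hA.mono _ _ _ _ fun h hh => ?_
        by_cases hq : q h
        · obtain ⟨x, hx, hp⟩ := h1 h hh hq
          rw [ind_pos hq, ← ind_pos hp]
          exact single_le_sum (f := fun x => ind (p x h)) (fun _ _ => ind_nonneg _) hx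
        · rw [ind_neg hq]; exact sum_nonneg fun _ _ => ind_nonneg _
    _ = ∑ x ∈ T, Ex A (fun h => ind (p x h)) := hA.sum _ _ A T fun x h => ind (p x h)
    _ ≤ T.card * c := by simpa using sum_le_card_nsmul T _ c h2

lemma ub2 (hA : SAVG) {M : Type} [AddCommGroup M] [Finite M] (A : AddSubgroup M)
    (q p p' : M → Prop) (h1 : ∀ h ∈ A, q h → p h ∨ p' h) :
    Ex A (fun h => ind (q h)) ≤ Ex A (fun h => ind (p h)) + Ex A (fun h => ind (p' h)) := by
  rw [← hA.add]
  refine hA.mono _ _ _ _ fun h hh => ?_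
  by_cases hq : q h
  · rcases h1 h hh hq with hp | hp
    · rw [ind_pos hq, ind_pos hp]; linarith [ind_nonneg (p' h)]
    · rw [ind_pos hq, ind_pos hp]; linarith [ind_nonneg (p h)]
  · rw [ind_neg hq]; exact add_nonneg (ind_nonneg _) (ind_nonneg _)

variable {ι : Type} [Fintype ι] [DecidableEq ι]

lemma hs_row {B F : Finset ι} {H : Matrix ι ι F2} (hH : H ∈ Hs i2 B F) (y : ι → F2) {l : ι}
    (hl : l ∉ B) : (H *ᵥ y) l = 0 :=
  sum_eq_zero fun l' _ => mul_eq_zero_of_left (hH.2.2 l l' fun h => hl h.1) _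

lemma hs_off {B F : Finset ι} {H : Matrix ι ι F2} (hH : H ∈ Hs i2 B F) {y : ι → F2}
    (hy : ∀ l ∈ F, y l = 0) {l : ι} (hl : l ∉ F) : (H *ᵥ y) l = 0 :=
  sum_eq_zero fun l' _ => by
    by_cases h : l' ∈ F
    · rw [hy l' h, mul_zero]
    · exact mul_eq_zero_of_left (hH.2.2 l l' fun h' => h'.2.2.elim hl h) _

lemma hs_sym {B F : Finset ι} {H : Matrix ι ι F2} (hH : H ∈ Hs i2 B F) (y y' : ι → F2) :
    dot B y (H *ᵥ y') = dot B y' (H *ᵥ y) := by
  have e : ∀ u u' : ι → F2, dot B u (H *ᵥ u') = ∑ l, ∑ l', u l * H l l' * u' l' := by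
    intro u u'
    rw [dot, sum_subset (subset_univ B) fun l _ hl => by rw [hs_row hH u' hl, mul_zero]]
    refine sum_congr rfl fun l _ => ?_
    simp only [mulVec, dotProduct, mul_sum, mul_assoc]
  rw [e, e, sum_comm]
  refine sum_congr rfl fun l _ => sum_congr rfl fun l' _ => ?_
  rw [hH.1 l l']
  simp only [RingHom.id_apply]
  ring

lemma dot_congr {B : Finset ι} (y : ι → F2) {v v' : ι → F2} (h : ∀ l ∈ B, v l = v' l) :
    dot B y v = dot B y v' := sum_congr rfl fun l hl => by rw [h l hl]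

lemma dot_sub (B : Finset ι) (y v v' : ι → F2) : dot B y (v - v') = dot B y v - dot B y v' := by
  simp only [dot, Pi.sub_apply, mul_sub, sum_sub_distrib]

lemma dot_add_right (B : Finset ι) (y v v' : ι → F2) :
    dot B y (v + v') = dot B y v + dot B y v' := by
  simp only [dot, Pi.add_apply, mul_add, sum_add_distrib]

lemma dot_add_left (B : Finset ι) (y y' v : ι → F2) :
    dot B (y + y') v = dot B y v + dot B y' v := by
  simp only [dot, Pi.add_apply, add_mul, sum_add_distrib]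

lemma dot_pt {B P : Finset ι} {y : ι → F2} (hy : ∀ l ∈ P ∩ B, y l = 0) (o : F2) (u : ι → F2) :
    dot B y (pt P o u) = 0 :=
  sum_eq_zero fun l hl => by
    unfold pt
    split_ifs with h
    · rw [hy l (mem_inter.2 ⟨h, hl⟩), zero_mul]
    · rw [mul_zero]

lemma f2_one {a : F2} (h : a ≠ 0) : a = 1 := by revert a; decide

lemma f2_add (a : F2) : a + a = 0 := by revert a; decide

open Classical in
/-- solutions of independent affine conditions -/
lemma card_aff (hQ : SQF) (F : Finset ι) {k : ℕ} (y : Fin k → ι → F2) (hy : Idp F y)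
    (c : Fin k → F2) :
    ((univ.filter fun x : F → F2 => ∀ i, ∑ l : F, y i l * x l = c i).card : ℝ) ≤
      2 ^ F.card / 2 ^ k := by
  let Q : (Fin k → F2) →+ (F → F2) → F2 := AddMonoidHom.mk'
    (fun μ x => ∑ i, μ i * (∑ l : F, y i l * x l - c i)) (fun μ ν => by
      funext x
      simp only [Pi.add_apply, add_mul, sum_add_distrib])
  have hq : ∀ μ x, Q μ x = ∑ i, μ i * (∑ l : F, y i l * x l - c i) := fun _ _ => rfl
  have h := hQ.qc (F → F2) (Fin k → F2) Q 0 le_rfl (fun μ hμ => by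
    have h1 : ∃ l ∈ F, ∑ i, μ i * y i l ≠ 0 := by
      by_contra h0
      push Not at h0
      exact hμ (hy μ h0)
    obtain ⟨l, hl, h2⟩ := h1
    rw [hQ.lin _ (Q μ) (Pi.single ⟨l, hl⟩ 1) fun x => ?_]
    · simp
    · rw [hq, hq]
      conv_rhs => rw [← f2_one h2]
      rw [← sum_add_distrib]
      refine sum_congr rfl fun i _ => ?_
      simp only [Pi.add_apply, mul_add, sum_add_distrib, Pi.single_apply, mul_ite, mul_one,
        mul_zero, sum_ite_eq', mem_univ, if_true]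
      ring)
  rw [zero_mul, abs_nonpos_iff, sub_eq_zero, nc] at h
  have e1 : (Nat.card (F → F2) : ℝ) = 2 ^ F.card := by simp
  have e2 : (Nat.card (Fin k → F2) : ℝ) = 2 ^ k := by simp
  rw [e1, e2] at h
  rw [← h]
  refine Nat.cast_le.2 (card_le_card fun x hx => ?_)
  simp only [mem_filter, mem_univ, true_and] at hx ⊢
  intro μ
  rw [hq]
  exact sum_eq_zero fun i _ => by rw [hx i, sub_self, mul_zero]

/-- the possible starting vectors -/
def St (S : Matrix ι ι F2) (e : ι → F2) (B P : Finset ι) (y : ι → F2) : Prop :=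
  (∀ l ∈ P ∩ B, y l = 0) ∧ (∀ l, l ∉ P → (S *ᵥ y) l = 0) ∧ dot univ e y = 0

open Classical in
lemma card_st (S : Matrix ι ι F2) (e : ι → F2) (B P : Finset ι) :
    (univ.filter (St S e B P)).card ≤ Kr S e P * 2 ^ Bᶜ.card := by
  let ρ : (ι → F2) → ↥(Bᶜ) → F2 := fun y l => if l.1 ∈ P then y l else 0
  refine (card_le_mul_card_image (f := ρ) _ (Kr S e P) fun a ha => ?_).trans
    (Nat.mul_le_mul_left _ ((card_le_univ _).trans (by simp [card_compl])))
  obtain ⟨y0, h0, rfl⟩ := mem_image.1 ha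
  have h0 := (mem_filter.1 h0).2
  rw [Kr, nc]
  refine card_le_card_of_injOn (fun y => y - y0) (fun y hy => ?_) fun _ _ _ _ h => sub_left_injective h
  simp only [coe_filter, mem_filter, mem_univ, true_and, Set.mem_ofPred_eq] at hy ⊢
  obtain ⟨h1, h2⟩ := hy
  refine ⟨fun l hl => ?_, fun l hl => ?_, ?_⟩
  · by_cases hB : l ∈ B
    · rw [Pi.sub_apply, h1.1 l (mem_inter.2 ⟨hl, hB⟩), h0.1 l (mem_inter.2 ⟨hl, hB⟩), sub_zero]
    · have := congrFun h2 ⟨l, mem_compl.2 hB⟩
      simp only [ρ, if_pos hl] at this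
      rw [Pi.sub_apply, this, sub_self]
  · rw [mulVec_sub, Pi.sub_apply, h1.2.1 l hl, h0.2.1 l hl, sub_zero]
  · rw [dot_sub, h1.2.2, h0.2.2, sub_zero]

/-- chains -/
def Ch (S : Matrix ι ι F2) (e : ι → F2) (P : Finset ι) (o : F2) (y : ℕ → ι → F2) : Prop :=
  ∀ j, S *ᵥ y j = pt P o (y (j + 1)) ∧ dot univ e (y j) = 0

lemma Ch.eq {S H : Matrix ι ι F2} {e : ι → F2} {P : Finset ι} {o : F2} {y : ℕ → ι → F2}
    (h : Ch (S + H) e P o y) (j : ℕ) : H *ᵥ y j = pt P o (y (j + 1)) - S *ᵥ y j := by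
  rw [← (h j).1, add_mulVec, add_sub_cancel_left]

/-- the first dependent member -/
lemma first_dep (F : Finset ι) (y : ℕ → ι → F2) (k : ℕ)
    (h : ¬Idp F fun i : Fin (k + 1) => y i) :
    ∃ j ∈ range (k + 1), (Idp F fun i : Fin j => y i) ∧
      ∀ i : Fin (j + 1), ∃ a : Fin j → F2, ∀ l ∈ F, y i l = ∑ i', a i' * y i' l := by
  classical
  have hex : ∃ j, ¬Idp F fun i : Fin (j + 1) => y i := ⟨k, h⟩
  have h1 := Nat.find_spec hex
  have h2 := Nat.find_min' hex h
  have h3 : Idp F fun i : Fin (Nat.find hex) => y i := by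
    have := fun j => Nat.find_min hex (m := j)
    generalize Nat.find hex = j at this
    cases j with
    | zero => intro a _; exact Subsingleton.elim _ _
    | succ j => exact not_not.1 (this j (Nat.lt_succ_self j))
  generalize Nat.find hex = j at h1 h2 h3
  refine ⟨j, mem_range.2 (by omega), h3, fun i => ?_⟩
  induction i using Fin.lastCases with
  | cast i =>
    refine ⟨Pi.single i 1, fun l _ => ?_⟩
    simp [Pi.single_apply]
  | last =>
    simp only [Idp, not_forall] at h1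
    obtain ⟨a, ha, ha0⟩ := h1
    simp only [Fin.sum_univ_castSucc, Fin.val_castSucc, Fin.val_last] at ha
    have hl : a (Fin.last j) = 1 := by
      refine f2_one fun h0 => ha0 ?_
      have := h3 (fun i => a i.castSucc) fun l hl => by simpa [h0] using ha l hl
      funext i
      induction i using Fin.lastCases with
      | cast i => exact congrFun this i
      | last => exact h0
    refine ⟨fun i => a i.castSucc, fun l hl' => ?_⟩
    have := ha l hl'
    rw [hl, one_mul] at this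
    rw [Fin.val_last]
    linear_combination f2_add (y j l) - this

lemma le_of_ind {p : Prop} {x a b : ℝ} (h : x ≤ ind p * a / b) (ha : 0 ≤ a) (hb : 0 ≤ b) :
    x ≤ a / b :=
  h.trans (div_le_div_of_nonneg_right (mul_le_of_le_one_left ha (ind_le_one p)) hb)

open Classical in
/-- dependent chains -/
lemma dep (hA : SAVG) (hP : SHP) (S : Matrix ι ι F2) (e : ι → F2) (B P : Finset ι) (o : F2)
    (j r : ℕ) (y0 : ι → F2) (h0 : ∀ l ∈ P ∩ B, y0 l = 0) (h1 : ∃ l ∈ B, y0 l ≠ 0)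
    (hr : j * Bᶜ.card + (j + 1) * j + (j + 1) + j * (j + 1) / 2 + r ≤ (P ∩ B).card) :
    Ex (Hs i2 B (P ∩ B)) (fun H => ind (∃ y : ℕ → ι → F2, y 0 = y0 ∧ Ch (S + H) e P o y ∧
      (Idp (P ∩ B) fun i : Fin j => y (i + 1)) ∧
      ∀ i : Fin (j + 1), ∃ a : Fin j → F2, ∀ l ∈ P ∩ B, y (i + 1) l = ∑ i', a i' * y (i' + 1) l)) ≤
      1 / 2 ^ r := by
  let X := (Fin j → ι → F2) × (Fin (j + 1) → Fin j → F2) × (Fin (j + 1) → F2)
  let U : X → Fin (j + 1) → ι → F2 := fun x i l =>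
    if l ∈ P then ∑ i', x.2.1 i i' * x.1 i' l + x.2.2 i else 0
  refine (ub hA _ _ (fun (x : X) H => (∀ l ∈ B, (H *ᵥ y0) l = (U x 0 - S *ᵥ y0) l) ∧
    ∀ i, ∀ l ∈ B, (H *ᵥ x.1 i) l = (U x i.succ - S *ᵥ x.1 i) l)
    (univ.filter fun x => Idp (P ∩ B) x.1) (2 ^ (j * (j + 1) / 2) / 2 ^ ((P ∩ B).card + j * B.card))
    ?_ ?_).trans ?_
  · rintro H - ⟨y, rfl, hy, hi, ha⟩
    choose a ha using ha
    have key : ∀ i : Fin (j + 1), ∀ l ∈ B, (H *ᵥ y i) l =
        (U (fun i => y (i + 1), a, fun i => o * ∑ l' ∈ P, y (i + 1) l') i - S *ᵥ y i) l := by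
      intro i l hl
      rw [hy.eq, Pi.sub_apply, Pi.sub_apply]
      congr 1
      simp only [pt, U]
      split_ifs with hp
      · rw [ha i l (mem_inter.2 ⟨hp, hl⟩)]
      · rfl
    exact ⟨(fun i => y (i + 1), a, fun i => o * ∑ l' ∈ P, y (i + 1) l'),
      mem_filter.2 ⟨mem_univ _, hi⟩, key 0, fun i => key i.succ⟩
  · intro x hx
    exact le_of_ind (hP.two ι B (P ∩ B) j x.1 (fun i => U x i.succ - S *ᵥ x.1 i) y0
      (U x 0 - S *ᵥ y0) inter_subset_right (mem_filter.1 hx).2 h0 h1) (by positivity)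
      (by positivity)
  · have hc : ((univ.filter fun x : X => Idp (P ∩ B) x.1).card : ℝ) ≤
        2 ^ (j * (B.card + Bᶜ.card) + (j + 1) * j + (j + 1)) := by
      have : (univ.filter fun x : X => Idp (P ∩ B) x.1).card ≤
          2 ^ (j * (B.card + Bᶜ.card) + (j + 1) * j + (j + 1)) := by
        refine (card_le_univ _).trans (le_of_eq ?_)
        rw [card_add_card_compl]
        simp only [X, Fintype.card_prod, Fintype.card_fun, Fintype.card_fin, ZMod.card]
        ring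
      exact_mod_cast this
    refine (mul_le_mul_of_nonneg_right hc (by positivity)).trans ?_
    rw [← mul_div_assoc, div_le_div_iff₀ (by positivity) (by positivity), one_mul, ← pow_add,
      ← pow_add]
    refine pow_le_pow_right₀ (by norm_num) ?_
    rw [mul_add]
    omega

open Classical in
/-- independent chains -/
lemma indep (hA : SAVG) (hQ : SQF) (hP : SHP) (hC : SCH) (S : Matrix ι ι F2) (e : ι → F2)
    (B P : Finset ι) (o : F2) (m z k : ℕ) (hO : Ok i2 i2 S e B P (P ∩ B) false m z)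
    (hm : 4 * (k + 1) * (k + z + 3) ≤ m)
    (y0 : ι → F2) (h0 : ∀ l ∈ P ∩ B, y0 l = 0) (h1 : ∃ l ∈ B, y0 l ≠ 0) :
    Ex (Hs i2 B (P ∩ B)) (fun H => ind (∃ y : ℕ → ι → F2, y 0 = y0 ∧ Ch (S + H) e P o y ∧
      Idp (P ∩ B) fun i : Fin (k + 1) => y (i + 1))) ≤ 2 ^ (Bᶜ.card + 1) / 2 ^ k := by
  let ℓ : Fin (k + 1) → (Fin (k + 1) → ι → F2) →+ F2 := fun i => AddMonoidHom.mk'
    (fun Y => dot B (Y i) (S *ᵥ y0) - dot B y0 (S *ᵥ Y i)) (fun Y Y' => by
      simp only [Pi.add_apply, dot_add_left, mulVec_add, dot_add_right]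
      ring)
  have hl : ∀ i Y, ℓ i Y = dot B (Y i) (S *ᵥ y0) - dot B y0 (S *ᵥ Y i) := fun _ _ => rfl
  have hN := hC ι S e B P (P ∩ B) o m z k (univ.erase 0) (Pi.single 0 1) 0 ℓ hO hm
    (notMem_erase _ _) (Pi.single_eq_same _ _)
  rw [card_erase_of_mem (mem_univ _), card_fin, Nat.add_sub_cancel] at hN
  let ex : (↥(P ∩ B) → F2) → ι → F2 := fun x l => if h : l ∈ P ∩ B then x ⟨l, h⟩ else 0
  have hex : ∀ (u : ι → F2) x, dot B u (ex x) = ∑ l : ↥(P ∩ B), u l * x l := by
    intro u x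
    rw [dot, ← sum_subset (inter_subset_right (s₁ := P)) fun l _ hl => by simp only [ex, dif_neg hl, mul_zero],
      ← sum_coe_sort]
    exact sum_congr rfl fun l _ => by simp only [ex, dif_pos l.2]
  let v : (Fin (k + 1) → ι → F2) → (↥(P ∩ B) → F2) → Fin (k + 1) → ι → F2 := fun Y x =>
    Fin.snoc (α := fun _ => ι → F2) (vv S P o Y) (ex x - S *ᵥ Y (Fin.last k))
  let c : (Fin (k + 1) → ι → F2) → Fin k → F2 := fun Y i =>
    dot B (Y i.castSucc) (S *ᵥ Y (Fin.last k)) + dot B (Y (Fin.last k)) (vv S P o Y i)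
  refine (ub hA _ _ (fun (Y : Fin (k + 1) → ι → F2) H =>
    ∃ x ∈ univ.filter fun x : ↥(P ∩ B) → F2 =>
      ∀ i : Fin k, ∑ l : ↥(P ∩ B), Y i.castSucc l * x l = c Y i,
      (∀ l ∈ B, (H *ᵥ y0) l = (pt P o (Y 0) - S *ᵥ y0) l) ∧
        ∀ i, ∀ l ∈ B, (H *ᵥ Y i) l = v Y x i l)
    (univ.filter fun Y => Idp (P ∩ B) Y ∧ Cn S e B P o Y ∧ ∀ i ∈ univ.erase 0,
      dot B (Y i) (pt P o (∑ j, (Pi.single 0 1 : Fin (k + 1) → F2) j • Y j)) = ℓ i Y)
    (2 ^ (P ∩ B).card / 2 ^ k *
      (2 ^ ((k + 1) * (k + 1 + 1) / 2) / 2 ^ ((P ∩ B).card + (k + 1) * B.card))) ?_ ?_).trans ?_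
  · rintro H hH ⟨y, rfl, hy, hi⟩
    have e1 : ∀ i : Fin k, vv S P o (fun i : Fin (k + 1) => y (i + 1)) i = H *ᵥ y (i + 1) :=
      fun i => (hy.eq (i + 1)).symm
    have e2 : ∀ l ∈ B, (H *ᵥ y (k + 1)) l =
        (ex (fun l => pt P o (y (k + 1 + 1)) l) - S *ᵥ y (k + 1)) l := by
      intro l hl
      rw [hy.eq, Pi.sub_apply, Pi.sub_apply]
      congr 1
      simp only [ex]
      split_ifs with h
      · rfl
      · exact if_neg fun hp => h (mem_inter.2 ⟨hp, hl⟩)
    refine ⟨fun i => y (i + 1), mem_filter.2 ⟨mem_univ _, hi, ⟨fun j => (hy _).2, fun j l hl => ?_,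
      fun i j => ?_⟩, fun i _ => ?_⟩, fun l => pt P o (y (k + 1 + 1)) l,
      mem_filter.2 ⟨mem_univ _, fun i => ?_⟩, fun l _ => congrFun (hy.eq 0) l, fun i l hl => ?_⟩
    · rw [e1, hs_row hH _ hl]
    · rw [e1, e1]; exact hs_sym hH _ _
    · have := hs_sym hH (y (i + 1)) (y 0)
      rw [hy.eq 0, hy.eq (i + 1), dot_sub, dot_sub, dot_pt h0] at this
      rw [hl]
      simp only [Pi.single_apply, ite_smul, one_smul, zero_smul, sum_ite_eq', mem_univ, if_true]
      change dot B (y (i + 1)) (pt P o (y (0 + 1))) = _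
      linear_combination this
    · have := hs_sym hH (y (i + 1)) (y (k + 1))
      rw [dot_congr _ e2, dot_sub, ← e1] at this
      refine (hex (y (i + 1)) fun l => pt P o (y (k + 1 + 1)) l).symm.trans ?_
      exact sub_eq_iff_eq_add'.1 this
    · induction i using Fin.lastCases with
      | cast i => simp only [v, Fin.snoc_castSucc, e1, Fin.val_castSucc]
      | last => simp only [v, Fin.snoc_last, Fin.val_last]; exact e2 l hl
  · intro Y hY
    have hi := (mem_filter.1 hY).2.1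
    refine (ub hA _ _ (fun (x : ↥(P ∩ B) → F2) H =>
      (∀ l ∈ B, (H *ᵥ y0) l = (pt P o (Y 0) - S *ᵥ y0) l) ∧ ∀ i, ∀ l ∈ B, (H *ᵥ Y i) l = v Y x i l)
      _ _ (fun _ _ h => h) fun x _ => le_of_ind (hP.two ι B (P ∩ B) (k + 1) Y (v Y x) y0
        _ inter_subset_right hi h0 h1) (by positivity) (by positivity)).trans ?_
    refine mul_le_mul_of_nonneg_right (card_aff hQ (P ∩ B) (fun i : Fin k => Y i.castSucc) ?_ (c Y))
      (by positivity)
    intro a ha
    have := hi (Fin.snoc (α := fun _ => F2) a 0) fun l hl => by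
      simpa [Fin.sum_univ_castSucc] using ha l hl
    funext i
    simpa using congrFun this i.castSucc
  · have hc : ((univ.filter fun Y : Fin (k + 1) → ι → F2 => Idp (P ∩ B) Y ∧ Cn S e B P o Y ∧
        ∀ i ∈ univ.erase 0, dot B (Y i)
          (pt P o (∑ j, (Pi.single 0 1 : Fin (k + 1) → F2) j • Y j)) = ℓ i Y).card : ℝ) ≤
        2 * 2 ^ ((k + 1) * (B.card + Bᶜ.card)) / 2 ^ (k + 1 + Bᶜ.card * k + k * (k - 1) / 2 + k) := by
      rw [le_div_iff₀ (by positivity), card_add_card_compl]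
      have := (Nat.mul_le_mul_right _ (le_nc _ (univ.filter
        fun Y : Fin (k + 1) → ι → F2 => Idp (P ∩ B) Y ∧ Cn S e B P o Y ∧
        ∀ i ∈ univ.erase 0, dot B (Y i)
          (pt P o (∑ j, (Pi.single 0 1 : Fin (k + 1) → F2) j • Y j)) = ℓ i Y)
        fun _ h => (mem_filter.1 h).2.2)).trans hN
      exact_mod_cast this
    refine (mul_le_mul_of_nonneg_right hc (by positivity)).trans (le_of_eq ?_)
    have e : (k + 1) * (k + 1 + 1) / 2 = k * (k - 1) / 2 + (2 * k + 1) := by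
      rw [← Nat.add_mul_div_left _ _ two_pos]
      congr 1
      cases k with
      | zero => rfl
      | succ k => rw [Nat.add_sub_cancel]; ring
    rw [e]
    field_simp
    ring

end NG

open NG in
theorem rowNG : OfNG := by
  intro hA hQ hP hC ι _ _ S e B P o m z k κ hO _ hm hK
  classical
  have hz := hO.sml
  have hφ := hO.pen
  refine (ub hA _ _ (fun (y0 : ι → F2) H => ∃ y : ℕ → ι → F2, y 0 = y0 ∧ Ch (S + H) e P o y)
    ((univ.filter (St S e B P)).filter fun y => ∃ l ∈ B, y l ≠ 0) (2 ^ (z + 2) / 2 ^ k)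
    ?_ ?_).trans ?_
  · rintro H hH ⟨y, h1, h2, h3⟩
    have h4 : ∀ l, l ∉ P → (S *ᵥ y 0) l = 0 := by
      intro l hl
      have := congrFun (h3 0).1 l
      rwa [add_mulVec, Pi.add_apply, hs_off hH h2 fun h => hl (mem_inter.1 h).1, add_zero, pt,
        if_neg hl] at this
    refine ⟨y 0, mem_filter.2 ⟨mem_filter.2 ⟨mem_univ _, h2, h4, (h3 0).2⟩, ?_⟩, y, rfl, h3⟩
    by_contra h0
    push Not at h0
    exact h1 (hO.col (y 0) h0 fun l _ hl => h4 l hl)
  · intro y0 hy
    have h0 := (mem_filter.1 (mem_filter.1 hy).1).2.1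
    have h1 := (mem_filter.1 hy).2
    refine (ub2 hA _ _ _ (fun H => ∃ j ∈ range (k + 1), ∃ y : ℕ → ι → F2, y 0 = y0 ∧
      Ch (S + H) e P o y ∧ (Idp (P ∩ B) fun i : Fin j => y (i + 1)) ∧
      ∀ i : Fin (j + 1), ∃ a : Fin j → F2, ∀ l ∈ P ∩ B, y (i + 1) l = ∑ i', a i' * y (i' + 1) l)
      ?_).trans ((add_le_add (indep hA hQ hP hC S e B P o m z k hO hm y0 h0 h1)
        (ub hA _ _ _ _ (1 / 2 ^ (k + k)) (fun _ _ h => h) fun j hj =>
          dep hA hP S e B P o j (k + k) y0 h0 h1 ?_)).trans ?_)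
    · rintro H - ⟨y, e0, hy⟩
      by_cases hi : Idp (P ∩ B) fun i : Fin (k + 1) => y (i + 1)
      · exact Or.inl ⟨y, e0, hy, hi⟩
      · obtain ⟨j, hj, h⟩ := first_dep (P ∩ B) (fun i => y (i + 1)) k hi
        exact Or.inr ⟨j, hj, y, e0, hy, h⟩
    · have h2 : j ≤ k := Nat.lt_succ_iff.1 (mem_range.1 hj)
      have h3 : j * (j + 1) / 2 ≤ j * (j + 1) := Nat.div_le_self _ _
      have h4 : j * Bᶜ.card ≤ k * z := Nat.mul_le_mul h2 hz
      have h5 : j * j ≤ k * k := Nat.mul_le_mul h2 h2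
      nlinarith
    · have h2 : ((k + 1 : ℕ) : ℝ) ≤ 2 ^ k := by exact_mod_cast Nat.lt_two_pow_self
      have h3 : (2 : ℝ) ^ (Bᶜ.card + 1) ≤ 2 ^ (z + 1) := pow_le_pow_right₀ (by norm_num) (by omega)
      have h4 : (1 : ℝ) ≤ 2 ^ (z + 1) := one_le_pow₀ (by norm_num)
      have h5 : ((range (k + 1)).card : ℝ) * (1 / 2 ^ (k + k)) ≤ 1 / 2 ^ k := by
        rw [card_range]
        refine (mul_le_mul_of_nonneg_right h2 (by positivity)).trans (le_of_eq ?_)
        field_simp
        ring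
      refine (add_le_add le_rfl h5).trans ?_
      rw [← add_div]
      refine div_le_div_of_nonneg_right ?_ (by positivity)
      rw [pow_succ _ (z + 1)]
      linarith
  · have h1 : ((univ.filter (St S e B P)).filter fun y => ∃ l ∈ B, y l ≠ 0).card ≤ 2 ^ (κ + z) := by
      refine (card_filter_le _ _).trans ((card_st S e B P).trans ?_)
      rw [pow_add]
      exact Nat.mul_le_mul hK (Nat.pow_le_pow_right two_pos hz)
    have h2 : (((univ.filter (St S e B P)).filter fun y => ∃ l ∈ B, y l ≠ 0).card : ℝ) ≤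
        2 ^ (κ + z) := by exact_mod_cast h1
    refine (mul_le_mul_of_nonneg_right h2 (by positivity)).trans (le_of_eq ?_)
    ring

end Pool.Agent.MP_1246c0_nt.H12
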