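import Pool.Agent.MP_1246c0_nt.H12.SpecA

/-! Primary elements. -/

namespace Pool.Agent.MP_1246c0_nt.H12

open NumberField IsDedekindDomain Finset Pool.Agent.MP_db5b97_nt.H85

namespace RE

variable {F : Type} [Field F] [NumberField F]

lemma f2_add (a : F2) : a + a = 0 := by revert a; decide

lemma add_right (hA : SRA) (a b b' : Un F) : dy a (b + b') = dy a b + dy a b' := by
  rw [hA.symm, hA.add, hA.symm F b, hA.symm F b']

lemma two_left (hA : SRA) (a z b : Un F) : dy (a + 2 • z) b = dy a b := by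
  rw [two_nsmul, hA.add, hA.add, f2_add, add_zero]

lemma two_right (hA : SRA) (a b z : Un F) : dy a (b - 2 • z) = dy a b := by
  rw [hA.symm, sub_eq_add_neg, ← smul_neg, two_left hA, hA.symm]

/-- approximate solution of `x ^ 2 + x = t` -/
lemma approx (w : Sp F) (h2 : w.valuation F (2 : F) < 1) {t : F} (ht : w.valuation F t < 1)
    (M : ℕ) : ∃ x : F, w.valuation F x ≤ 1 ∧
      w.valuation F (x ^ 2 + x - t) ≤ w.valuation F (2 : F) ^ M := by
  set c := max (w.valuation F t) (w.valuation F (2 : F)) with hc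
  have hc1 : c < 1 := max_lt ht h2
  have key : ∀ k : ℕ, ∃ x : F, w.valuation F x ≤ 1 ∧
      w.valuation F (x ^ 2 + x - t) ≤ c ^ (k + 1) := by
    intro k
    induction k with
    | zero => exact ⟨0, by simp, by simp [hc]⟩
    | succ k ih =>
      obtain ⟨x, h3, h4⟩ := ih
      have h5 : w.valuation F (x ^ 2 + x - t) ≤ c :=
        h4.trans (by simpa using pow_le_pow_of_le_one zero_le hc1.le (Nat.le_add_left 1 k))
      refine ⟨x - (x ^ 2 + x - t), Valuation.map_sub_le _ h3 (h5.trans hc1.le), ?_⟩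
      have e : (x - (x ^ 2 + x - t)) ^ 2 + (x - (x ^ 2 + x - t)) - t =
          (x ^ 2 + x - t) * ((x ^ 2 + x - t) - 2 * x) := by ring
      rw [e, map_mul, pow_succ c]
      refine mul_le_mul' h4 (Valuation.map_sub_le _ h5 ?_)
      rw [map_mul]
      exact (mul_le_of_le_one_right' h3).trans (le_max_right _ _)
  obtain ⟨k, hk⟩ := exists_pow_lt₀ hc1
    (Units.mk0 (w.valuation F (2 : F) ^ M) (pow_ne_zero _ (by simp)))
  obtain ⟨x, h3, h4⟩ := key k
  exact ⟨x, h3, h4.trans ((pow_le_pow_of_le_one zero_le hc1.le (Nat.le_succ k)).trans hk.le)⟩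

/-- one prime above two, with residue field of order two -/
structure One (w : Sp F) : Prop where
  uq : ∀ v : Sp F, ((2 : ℕ) : 𝓞 F) ∈ v.asIdeal ↔ v = w
  res : ∀ x : 𝓞 F, x ∈ w.asIdeal ∨ x - 1 ∈ w.asIdeal

variable {w : Sp F}

lemma One.two (h : One w) : w.valuation F (2 : F) < 1 := by
  simpa using val_nat_lt_one ((h.uq w).2 rfl)

lemma One.rl (h : One w) {x : F} : x ∈ Rl F 2 ↔ w.valuation F x ≤ 1 := by
  rw [mem_Rl_iff two_ne_zero]
  exact ⟨fun H => H w ((h.uq w).2 rfl), fun H v hv => (h.uq v).1 hv ▸ H⟩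

lemma One.ru (h : One w) {x : Un F} : x ∈ Ru F 2 ↔ w.valuation F x.val = 1 :=
  ⟨fun H => H w ((h.uq w).2 rfl), fun H v hv => (h.uq v).1 hv ▸ H⟩

lemma One.ray (h : One w) {x : Un F} {M : ℕ} : x ∈ Ray F 2 M ↔ w.valuation F x.val = 1 ∧
    w.valuation F (x.val - 1) ≤ w.valuation F (2 : F) ^ M := by
  rw [mem_Ray, h.ru]
  refine and_congr Iff.rfl ⟨fun H => by simpa using H w ((h.uq w).2 rfl), fun H v hv => ?_⟩
  rw [(h.uq v).1 hv]
  simpa using H

lemma One.cases (h : One w) {x : F} (hx : w.valuation F x ≤ 1) :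
    w.valuation F x < 1 ∨ w.valuation F (x - 1) < 1 := by
  obtain ⟨z, y, hy, e⟩ := exists_int_approx (h.rl.2 hx) 1
  have h1 : w.valuation F (((2 : ℕ) : F) ^ 1 * y) < 1 := by
    rw [pow_one, map_mul]
    exact mul_lt_one_of_lt_of_le (by simpa using h.two) (h.rl.1 hy)
  rcases h.res z with hz | hz
  · exact Or.inl (e ▸ Valuation.map_add_lt _ ((val_lt_one_iff w z).2 hz) h1)
  · refine Or.inr ?_
    have e' : x - 1 = ((z - 1 : 𝓞 F) : F) + ((2 : ℕ) : F) ^ 1 * y := by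
      rw [e]; simp only [map_sub, map_one]; ring
    exact e' ▸ Valuation.map_add_lt _ ((val_lt_one_iff w _).2 hz) h1

lemma One.odd (h : One w) {x : F} (hx : w.valuation F x ≤ 1) : w.valuation F (1 + 2 * x) = 1 := by
  refine Valuation.map_one_add_of_lt _ ?_
  rw [map_mul]
  exact mul_lt_one_of_lt_of_le h.two hx

lemma van (hA : SRA) (h : One w) {M : ℕ} (hM : 1 ≤ M)
    (hD : ∀ a ∈ Ray F 2 M, ∀ b : Un F, dy a b = 0) {a : Un F} (ha : a ∈ Ru F 2) {b : Un F}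
    (hb : b ∈ Ray F 2 2) : dy a b = 0 := by
  obtain ⟨r, hr, e⟩ := (mem_Ray_iff two_ne_zero one_le_two).1 hb
  have hr := h.rl.1 hr
  have ha := h.ru.1 ha
  have hb1 := (h.ray.1 hb).1
  have hM' : w.valuation F (2 : F) ^ M < 1 := pow_lt_one₀ zero_le h.two (by omega)
  have h4 : w.valuation F (4 : F) ≤ 1 := by simpa using val_nat_le_one w 4
  push_cast at e
  rcases h.cases hr with h1 | h1
  · obtain ⟨x, hx, hx'⟩ := approx w h.two h1 M
    have h2 := h.odd hx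
    have h3 : (1 + 2 * x) ≠ 0 := fun h0 => by simp [h0] at h2
    rw [← two_right hA a b (Un.mk _ h3), hA.symm]
    refine hD _ (h.ray.2 ⟨by simp [hb1, h2], ?_⟩) _
    have e2 : (b - 2 • Un.mk _ h3).val - 1 = -(4 * (x ^ 2 + x - r)) / (1 + 2 * x) ^ 2 := by
      rw [Un.val_sub, Un.val_nsmul, Un.val_mk, e]
      field_simp
      ring
    rw [e2, map_div₀, map_pow, h2, one_pow, div_one, Valuation.map_neg, map_mul]
    exact (mul_le_of_le_one_left' h4).trans hx'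
  · have h0 : w.valuation F (a.val - 1) < 1 := (h.cases ha.le).resolve_left ha.not_lt
    have ht : w.valuation F (a.val + r) < 1 := by
      have e2 : a.val + r = a.val - 1 + (r - 1) + 2 := by ring
      rw [e2]
      exact Valuation.map_add_lt _ (Valuation.map_add_lt _ h0 h1) h.two
    obtain ⟨x, hx, hx'⟩ := approx w h.two ht M
    have h2 := h.odd hx
    have h3 : (1 + 2 * x) ≠ 0 := fun h0 => by simp [h0] at h2
    have h5 : w.valuation F ((x ^ 2 + x - (a.val + r)) / a.val) ≤ w.valuation F (2 : F) ^ M := by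
      rwa [map_div₀, ha, div_one]
    have h6 : w.valuation F (1 + (x ^ 2 + x - (a.val + r)) / a.val) = 1 :=
      Valuation.map_one_add_of_lt _ (h5.trans_lt hM')
    have h7 : 1 + (x ^ 2 + x - (a.val + r)) / a.val ≠ 0 := fun h0 => by simp [h0] at h6
    have h8 : Un.mk _ h7 ∈ Ray F 2 M := h.ray.2 ⟨h6, by rwa [Un.val_mk, add_sub_cancel_left]⟩
    have h9 := hA.stb F (a + Un.mk _ h7 + 2 • (Un.mk (2 : F) two_ne_zero - Un.mk _ h3))
      (b - 2 • Un.mk _ h3) (by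
        have := a.val_ne
        simp only [Un.val_add, Un.val_sub, Un.val_nsmul, Un.val_mk, e]
        rw [div_pow, ← mul_div_assoc, ← add_div, div_eq_one_iff_eq (pow_ne_zero 2 h3)]
        field_simp
        ring)
    rwa [two_left hA, two_right hA, hA.add, hD _ h8, add_zero] at h9

lemma eu_le : Eu F ≤ Ru F 2 := fun _ hx v _ =>
  (ord_eq_zero_iff v _).1 (AddSubgroup.mem_iInf.1 hx v)

open Classical in
lemma dy_unit {a b : Un F} (ha : a ∈ Eu F) (hb : b ∈ Eu F) :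
    dy a b = ∑ᶠ ρ : F →+* ℝ, if ρ a.val < 0 ∧ ρ b.val < 0 then 1 else 0 := by
  rw [dy, finsum_eq_zero_of_forall_eq_zero, zero_add]
  intro v
  have h1 : ord v.1 a = 0 := AddSubgroup.mem_iInf.1 ha v.1
  have h2 : ord v.1 b = 0 := AddSubgroup.mem_iInf.1 hb v.1
  rw [tame, h1, h2, qv, if_pos ⟨1, by simp⟩]

lemma ray_idx : (Ray F 2 2).relIndex (Ray F 2 1) ≤ 2 ^ Module.finrank ℚ F := by
  have hfin : Finite (𝓞 F ⧸ Ideal.span {((2 : ℕ) : 𝓞 F)}) :=
    Ideal.finiteQuotientOfFreeOfNeBot _ (by simp)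
  have hc : Nat.card (𝓞 F ⧸ Ideal.span {((2 : ℕ) : 𝓞 F)}) = 2 ^ Module.finrank ℚ F := by
    rw [← Submodule.cardQuot_apply, ← Ideal.absNorm_apply, Ideal.absNorm_span_natCast,
      RingOfIntegers.rank]
  choose y hy e using fun x : Ray F 2 1 => (mem_Ray_iff two_ne_zero le_rfl).1 x.2
  choose z y' hy' e' using fun x : Ray F 2 1 => exists_int_approx (hy x) 1
  rw [← hc]
  refine Nat.card_le_card_of_injective
    (fun q => Ideal.Quotient.mk (Ideal.span {((2 : ℕ) : 𝓞 F)}) (z q.out)) fun q q' h => ?_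
  rw [← QuotientAddGroup.out_eq' q, ← QuotientAddGroup.out_eq' q', QuotientAddGroup.eq]
  obtain ⟨c, hc⟩ := Ideal.mem_span_singleton'.1 (Ideal.Quotient.eq.1 h)
  have hc' := congrArg (fun t : 𝓞 F => (t : F)) hc
  simp only [map_mul, map_natCast, map_sub] at hc'
  refine (mem_Ray_iff two_ne_zero one_le_two).2 ⟨(q.out : Un F).val⁻¹ * (y' q'.out - y' q.out - c),
    mul_mem ((mem_Ru_iff two_ne_zero).1 q.out.2.1).2
      (sub_mem (sub_mem (hy' _) (hy' _)) (coe_mem_Rl c)), ?_⟩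
  have h0 := (q.out : Un F).val_ne
  simp only [AddSubgroup.coe_subtype, AddSubgroup.coe_add, AddSubgroup.coe_neg, Un.val_add,
    Un.val_neg]
  field_simp
  linear_combination e q'.out - e q.out + ((2 : ℕ) : F) * (e' q'.out - e' q.out + hc')

lemma One.half (h : One w) {x : Un F} (hx : x ∈ Ru F 2) (h2 : 2 • x ∈ Ray F 2 2) :
    x ∈ Ray F 2 1 := by
  refine h.ray.2 ⟨h.ru.1 hx, ?_⟩
  rw [pow_one]
  by_contra hlt
  rw [not_le] at hlt
  have h3 := (h.ray.1 h2).2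
  have e : (2 • x).val - 1 = (x.val - 1) * (x.val - 1 + 2) := by rw [Un.val_nsmul]; ring
  rw [e, map_mul, Valuation.map_add_eq_of_lt_left _ hlt, ← pow_two] at h3
  exact absurd (pow_lt_pow_left₀ hlt zero_le two_ne_zero) (not_lt.2 h3)

lemma One.idx (h : One w) :
    (Ray F 2 2 ⊔ (Ru F 2).map (nsmulAddMonoidHom 2)).relIndex (Ru F 2) ≠ 0 ∧
    (Ray F 2 2 ⊔ (Ru F 2).map (nsmulAddMonoidHom 2)).relIndex (Ru F 2) ≤ 2 ^ Module.finrank ℚ F := by
  set Q := Ray F 2 2 ⊔ (Ru F 2).map (nsmulAddMonoidHom 2) with hQ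
  set K := (Ray F 2 2).comap (nsmulAddMonoidHom 2) ⊓ Ru F 2 with hK
  have h0 := Ray_relIndex_ne (F := F) two_ne_zero 2
  have h1 : Q ≤ Ru F 2 := sup_le (Ray_le_Ru 2) (by
    rintro _ ⟨x, hx, rfl⟩
    exact nsmul_mem hx 2)
  have h2 := AddSubgroup.relIndex_mul_relIndex (Ray F 2 2) Q (Ru F 2) le_sup_left h1
  have h3 := AddSubgroup.relIndex_mul_relIndex (Ray F 2 2) K (Ru F 2)
    (le_inf (fun x hx => nsmul_mem hx 2) (Ray_le_Ru 2)) inf_le_right
  have h4 : K.relIndex (Ru F 2) = (Ray F 2 2).relIndex Q := by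
    rw [hK, AddSubgroup.inf_relIndex_right, AddSubgroup.relIndex_comap, hQ,
      AddSubgroup.relIndex_sup_left]
  have h5 : (Ray F 2 2).relIndex Q ≠ 0 := left_ne_zero_of_mul (h2 ▸ h0)
  have h6 : Q.relIndex (Ru F 2) = (Ray F 2 2).relIndex K := by
    rw [h4, ← h2, mul_comm] at h3
    exact (mul_left_cancel₀ h5 h3).symm
  refine ⟨right_ne_zero_of_mul (h2 ▸ h0), h6 ▸ le_trans ?_ ray_idx⟩
  exact AddSubgroup.relIndex_le_of_le_right (fun x hx => h.half hx.2 hx.1)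
    fun h7 => h0 (AddSubgroup.relIndex_eq_zero_of_le_right (Ray_le_Ru 1) h7)

end RE

open RE in
theorem rowRE : OfRE := by
  intro hC hU hA hD
  have hv : ∀ (F : Type) [Field F] [NumberField F] (n : ℕ) (θ : F) (γ : F ≃ₐ[ℚ] F), Cy F n θ γ →
      ∀ a ∈ Ru F 2, ∀ b z : Un F, b - 2 • z ∈ Ray F 2 2 → dy a b = 0 := by
    intro F _ _ n θ γ hF a ha b z hb
    obtain ⟨-, w, h1, -, -, h2⟩ := hC.two F n θ γ hF
    rw [← two_right hA a b z]
    exact van hA ⟨h1, h2⟩ (by omega) (hD n F θ γ hF) ha hb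
  refine ⟨hv, fun F _ _ n θ γ hF a ha => ?_⟩
  obtain ⟨-, w, h1, -, -, h2⟩ := hC.two F n θ γ hF
  obtain ⟨h3, h4⟩ := One.idx ⟨h1, h2⟩
  set Q := Ray F 2 2 ⊔ (Ru F 2).map (nsmulAddMonoidHom 2) with hQ
  have h5 : Q ≤ Ru F 2 := sup_le (Ray_le_Ru 2) (by
    rintro _ ⟨x, hx, rfl⟩
    exact nsmul_mem hx 2)
  have h6 : Q ⊓ Eu F ≤ (Eu F).map (nsmulAddMonoidHom 2) := by
    rintro u ⟨hu, hu'⟩
    obtain ⟨r, hr, _, ⟨z, -, rfl⟩, e⟩ := AddSubgroup.mem_sup.1 hu
    obtain ⟨v, hv', e'⟩ := hU.sq F n θ γ hF u hu' fun ρ => by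
      obtain ⟨a, ha, hs⟩ := hU.sig F n θ γ hF {ρ}
      have h7 := hv F n θ γ hF a (eu_le ha) u z (by
        rw [← e]
        simpa using hr)
      rw [dy_unit ha hu', finsum_eq_single _ ρ fun ρ' hρ => if_neg fun h => hρ ((hs ρ').1 h.1)]
        at h7
      refine lt_of_le_of_ne (not_lt.1 fun h => ?_) (Ne.symm ((map_ne_zero ρ).2 u.val_ne))
      rw [if_pos ⟨(hs ρ).2 rfl, h⟩] at h7
      exact one_ne_zero h7
    exact ⟨v, hv', e'.symm⟩
  have h7 := AddSubgroup.relIndex_mul_relIndex Q (Eu F ⊔ Q) (Ru F 2) le_sup_right (sup_le eu_le h5)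
  rw [AddSubgroup.relIndex_sup_right, ← AddSubgroup.inf_relIndex_right] at h7
  have h8 := AddSubgroup.relIndex_le_of_le_left h6 (left_ne_zero_of_mul (h7 ▸ h3))
  rw [hU.idx F n θ γ hF] at h8
  rw [hF.rk, ← h7] at h4
  have h9 : (Eu F ⊔ Q).relIndex (Ru F 2) = 1 := by
    have h10 : (Eu F ⊔ Q).relIndex (Ru F 2) ≠ 0 := right_ne_zero_of_mul (h7 ▸ h3)
    have h11 : 0 < 2 ^ 2 ^ n := by positivity
    by_contra h12
    have : 2 ≤ (Eu F ⊔ Q).relIndex (Ru F 2) := by omega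
    nlinarith
  obtain ⟨u, hu, q, hq, e⟩ := AddSubgroup.mem_sup.1 (AddSubgroup.relIndex_eq_one.1 h9 ha)
  obtain ⟨r, hr, _, ⟨z, -, rfl⟩, rfl⟩ := AddSubgroup.mem_sup.1 hq
  refine ⟨-u, neg_mem hu, z, ?_⟩
  convert hr using 1
  rw [← e, nsmulAddMonoidHom_apply]
  abel

end Pool.Agent.MP_1246c0_nt.H12
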