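import Pool.Agent.MP_1246c0_nt.H16.XUS
import Pool.Agent.MP_1246c0_nt.H84.XLMD

/-! The left kernel solves the dual system. -/

namespace Pool.Agent.MP_1246c0_nt.H25

open Finset Matrix Pool.Agent.MP_db5b97_nt.H85
open Pool.Agent.MP_1246c0_nt.H12 US

namespace DS

variable {ℓ : ℕ}

theorem two0 : (2 : F2) = 0 := rfl

theorem mu1 {y : Fin ℓ → ℤ} : y ∈ Mu _ 1 ↔ rd ℓ y = 0 :=
  ⟨fun ⟨z, hz⟩ => hz ▸ rd_two z, fun h => (rd_zero h).imp fun _ e => e.symm⟩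

theorem mu1' {y z : Fin ℓ → ℤ} (h : y - z ∈ Mu _ 1) : rd ℓ y = rd ℓ z := by
  rwa [mu1, map_sub, sub_eq_zero] at h

theorem mu2 {v y : Fin ℓ → ℤ} (h : v - 2 • y ∈ Mu _ 2) : ∃ y', v = 2 • y' ∧ rd ℓ y' = rd ℓ y := by
  obtain ⟨z, hz⟩ := mem_Mu.1 h
  exact ⟨y + 2 • z, by rw [smul_add, smul_smul, ← sq, hz, add_sub_cancel],
    by rw [map_add, rd_two, add_zero]⟩

/-- geometric sums of matrices -/
def gG (G : Mb ℓ) (k : ℕ) : Mb ℓ := ∑ i ∈ range k, G ^ i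

theorem rd_gs (g : Matrix (Fin ℓ) (Fin ℓ) ℤ) (k : ℕ) (x : Fin ℓ → ℤ) :
    rd ℓ (gs (toLin' g) k x) = gG (bar g) k *ᵥ rd ℓ x := by
  simp only [gs, gG, LinearMap.sum_apply, map_sum, rd_pow, sum_mulVec]

theorem rd_cw {Λ : Type} [CommRing Λ] {φ : Λ →+* Mb ℓ} {γ : Λ} {g : Matrix (Fin ℓ) (Fin ℓ) ℤ}
    (h : φ γ = bar g) {n : ℕ} (f : Co n) (x : Fin ℓ → ℤ) :
    rd ℓ (cw (toLin' g) f x) = φ (cv γ f) *ᵥ rd ℓ x := by
  simp only [cw, cv, LinearMap.sum_apply, LinearMap.smul_apply, map_sum, map_nsmul, rd_pow,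
    sum_mulVec, map_pow, h, ← nsmul_eq_mul, smul_mulVec]

theorem fix_pow {w : Vb ℓ} {A : Mb ℓ} (h : w ᵥ* A = w) (j : ℕ) : w ᵥ* A ^ j = w := by
  induction j with
  | zero => simp
  | succ j ih => rw [pow_succ, ← vecMul_vecMul, ih, h]

theorem fix_gG {w : Vb ℓ} {A : Mb ℓ} (h : w ᵥ* A = w) (k : ℕ) : w ᵥ* gG A k = k • w := by
  simp [gG, vecMul_sum, fix_pow h]

theorem gG_fix {w : Vb ℓ} {A : Mb ℓ} {k : ℕ} (h : w ᵥ* A ^ k = w) :
    w ᵥ* gG A k ᵥ* A = w ᵥ* gG A k := by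
  have := geom_sum_mul A k
  rw [mul_sub, mul_one, sub_eq_iff_eq_add] at this
  rw [vecMul_vecMul, gG, this, vecMul_add, vecMul_sub, h, vecMul_one, sub_self, zero_add]

theorem fix_cv {Λ : Type} [CommRing Λ] {φ : Λ →+* Mb ℓ} {γ : Λ} {w : Vb ℓ} (h : w ᵥ* φ γ = w)
    {n : ℕ} (f : Co n) : w ᵥ* φ (cv γ f) = (∑ k, f k) • w := by
  simp only [cv, map_sum, map_nsmul, map_pow, ← nsmul_eq_mul, vecMul_sum, vecMul_smul, fix_pow h,
    sum_smul]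
  exact sum_congr rfl fun k _ => by rw [← Nat.cast_smul_eq_nsmul F2, ZMod.natCast_zmod_val]

theorem half {g : Matrix (Fin ℓ) (Fin ℓ) ℤ} {d n : ℕ} {ψ : Ga → Fin ℓ → ℤ} {p : Ga × Ga}
    {w : Vb ℓ} (hw : w ᵥ* bar g ^ (kap n p.1).val = w) {z z' : Fin ℓ → ℤ}
    (h1 : rd ℓ (ψ p.2) = rd ℓ z) (h2 : z - acn d n (toLin' g) p.1 z = 2 • z') :
    ∃ E, Eo d n (toLin' g) ψ p = 2 • E ∧ w ⬝ᵥ rd ℓ E = w ⬝ᵥ rd ℓ (ψ p.1) + w ⬝ᵥ rd ℓ z' := by
  obtain ⟨e, he⟩ := rd_zero (y := ψ p.2 - z) (by rw [map_sub, h1, sub_self])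
  refine ⟨ψ p.1 - z' - (e - acn d n (toLin' g) p.1 e), ?_, ?_⟩
  · rw [Eo, sub_eq_iff_eq_add.1 he, map_add, map_nsmul, smul_sub, smul_sub, smul_sub, ← h2]
    abel
  · rw [map_sub, map_sub, map_sub, rd_acn, dotProduct_sub, dotProduct_sub, dotProduct_sub,
      dotProduct_mulVec, hw, sub_self, sub_zero, CharTwo.sub_eq_add]

theorem half0 {g : Matrix (Fin ℓ) (Fin ℓ) ℤ} {d n : ℕ} {ψ : Ga → Fin ℓ → ℤ} {p : Ga × Ga}
    {w : Vb ℓ} (hw : w ᵥ* bar g ^ (kap n p.1).val = w) (h1 : rd ℓ (ψ p.2) = 0) :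
    ∃ E, Eo d n (toLin' g) ψ p = 2 • E ∧ w ⬝ᵥ rd ℓ E = w ⬝ᵥ rd ℓ (ψ p.1) := by
  simpa using half (d := d) hw (z := 0) (z' := 0) (h1.trans (map_zero _).symm) (by simp)

theorem total {κ : Type} [Fintype κ] {w : κ → Vb ℓ} {E : κ → Fin ℓ → ℤ} {t : κ → F2}
    (h : ∀ ρ, ∃ e, E ρ = 2 • e ∧ w ρ ⬝ᵥ rd ℓ e = t ρ) (h4 : (2 : ℤ) ^ 2 ∣ ∑ ρ, lf (w ρ) ⬝ᵥ E ρ) :
    ∑ ρ, t ρ = 0 := by
  choose e h1 h2 using h
  simp only [h1, dotProduct_smul, ← smul_sum] at h4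
  rw [sq, nsmul_eq_mul] at h4
  have := (ZMod.intCast_zmod_eq_zero_iff_dvd _ 2).2 (Int.dvd_of_mul_dvd_mul_left two_ne_zero h4)
  simpa only [Int.cast_sum, rd_dot, h2] using this

theorem mult {g : Matrix (Fin ℓ) (Fin ℓ) ℤ} {m : ℕ} {w : Vb ℓ} (hw : w ᵥ* bar g ^ m = w)
    {x y : Fin ℓ → ℤ} (h : (toLin' g ^ m) x - x = 2 • y) (o : ℕ) :
    ∃ y', (toLin' g ^ (m * o)) x - x = 2 • y' ∧ w ⬝ᵥ rd ℓ y' = o * (w ⬝ᵥ rd ℓ y) := by
  induction o with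
  | zero => exact ⟨0, by simp, by simp⟩
  | succ o ih =>
    obtain ⟨y', a, b⟩ := ih
    refine ⟨(toLin' g ^ (m * o)) y + y', ?_, ?_⟩
    · rw [smul_add, ← a, ← map_nsmul, ← h, mul_add_one, pow_add, Module.End.mul_apply, map_sub]
      abel
    · rw [map_add, dotProduct_add, b, rd_pow, dotProduct_mulVec, pow_mul, fix_pow hw]
      push_cast
      ring

theorem sgn (g : Matrix (Fin ℓ) (Fin ℓ) ℤ) (d n : ℕ) (h : Ga) {x y : Fin ℓ → ℤ}
    (e : (toLin' g ^ (kap n h).val) x - x = 2 • y) :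
    ∃ z, x - acn d n (toLin' g) h x = 2 • z ∧ rd ℓ z = chi d h • rd ℓ x + rd ℓ y := by
  rw [acn, Module.End.mul_apply, sub_eq_iff_eq_add.1 e]
  rcases (by decide : ∀ c : F2, c = 0 ∨ c = 1) (chi d h) with c | c <;> rw [c]
  · refine ⟨-y, by simp, ?_⟩
    rw [map_neg, zero_smul, zero_add]
    exact funext fun i => ZMod.neg_eq_self_mod_two _
  · refine ⟨x + y, ?_, by rw [map_add, one_smul]⟩
    rw [ZMod.val_one, pow_one, LinearMap.neg_apply, Module.End.one_apply]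
    abel

theorem kval {Φ : Frm} (h : AxV Φ) (n : ℕ) {l : ℕ} (hl : Gd 0 l) :
    ∃ o : ℕ, (kap n (Φ.fr l)).val = 2 ^ min (lev l) n * o ∧ (lev l < n → Odd o) := by
  obtain ⟨o, ho, e⟩ := h.kfr n l hl
  rw [e, ZMod.val_natCast]
  rcases lt_or_ge (lev l) n with c | c
  · obtain ⟨j, rfl⟩ := Nat.exists_eq_add_of_lt c
    refine ⟨o % 2 ^ (j + 1), ?_, fun _ => ?_⟩
    · rw [min_eq_left c.le, add_assoc, pow_add, Nat.mul_mod_mul_left]
    · rwa [Nat.odd_iff, Nat.mod_mod_of_dvd _ (dvd_pow_self 2 j.succ_ne_zero), ← Nat.odd_iff]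
  · exact ⟨0, Nat.mod_eq_zero_of_dvd ((pow_dvd_pow 2 c).mul_right o), fun a => absurd a c.not_gt⟩

theorem kfix {Φ : Frm} (h : AxV Φ) {n l : ℕ} (hl : Gd 0 l) {G : Mb ℓ} (hG : G ^ 2 ^ n = 1)
    {w : Vb ℓ} (hw : w ᵥ* G ^ (kap n (Φ.fr l)).val = w) : w ᵥ* G ^ 2 ^ lev l = w := by
  obtain ⟨o, ho, e⟩ := h.kfr n l hl
  obtain ⟨o', -, e'⟩ := Nat.exists_mul_mod_eq_of_coprime (k := 2 ^ n) 1
    ((Nat.coprime_two_right.2 ho).pow_right n) (by positivity)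
  have := fix_pow hw o'
  rwa [← pow_mul, e, ZMod.val_natCast, pow_eq_pow_of_modEq (b := 2 ^ lev l * 1)
    (((Nat.mod_modEq _ _).mul_right o').trans (mul_assoc _ o o' ▸ Nat.ModEq.mul_left _ e')) hG,
    mul_one] at this

theorem zsum {M : Type} [AddCommMonoid M] (N : ℕ) [NeZero N] (f : ℕ → M) :
    ∑ k : ZMod N, f k.val = ∑ i ∈ range N, f i := by
  obtain ⟨N, rfl⟩ := Nat.exists_eq_succ_of_ne_zero (NeZero.ne N)
  exact Fin.sum_univ_eq_sum_range f _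

theorem fl_f2 {S : Sy} (h : Ax2 S) (n : ℕ) {l : ℕ} (hl : Gd 0 l) (k : ZMod (2 ^ n)) :
    fl S n l S.Φ.f2 k = if k.val < 2 ^ min (lev l) n then fl S n l S.Φ.f2 0 else 0 := by
  simp only [fl, ZMod.val_zero, Nat.two_pow_pos, if_true]
  split_ifs
  · exact h.f2 _ _ _ _ ⟨hl.1, hl.2.1, min_le_left _ _⟩
  · rfl

theorem cw_f2 {S : Sy} (h : Ax2 S) (n : ℕ) {l : ℕ} (hl : Gd 0 l)
    (T : Module.End ℤ (Fin ℓ → ℤ)) : cw T (fl S n l S.Φ.f2)
      = (fl S n l S.Φ.f2 0).val • gs T (2 ^ min (lev l) n) := by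
  generalize hc : fl S n l S.Φ.f2 0 = c
  rw [cw, sum_congr rfl fun k _ => by rw [fl_f2 h n hl k, hc],
    zsum _ fun i => (if i < 2 ^ min (lev l) n then c else 0).val • T ^ i, gs, smul_sum]
  symm
  refine sum_subset_zero_on_sdiff (range_mono (Nat.pow_le_pow_right two_pos (min_le_right _ _)))
    (fun i hi => ?_) fun i hi => ?_
  · rw [if_neg (by simpa using (mem_sdiff.1 hi).2), ZMod.val_zero, zero_smul]
  · rw [if_pos (mem_range.1 hi)]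

section Key

variable {ι Λ : Type} [Fintype ι] [DecidableEq ι] [CommRing Λ] {S : Sy} {μ : Md ℓ} {pr : ι → ℕ}
  {P J : ℕ} {i1 : ι} {st : Λ →+* Λ} {au : Λ →+* F2} {g : Λ} {φ : Λ →+* Mb ℓ}
  {M' : Matrix ι ι Λ} {w : Option ι ⊕ Bool → Vb ℓ}

/-- the invariant functional -/
noncomputable def tht (Φ : Frm) (μ : Md ℓ) (pr : ι → ℕ) (P : ℕ) (w : Option ι ⊕ Bool → Vb ℓ) :
    Vb ℓ :=
  ∑ l, w (.inl (some l)) ᵥ* gG (bar μ.g) (kap μ.n (Φ.fr (pr l))).val + w (.inl none) +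
    if dd pr P % 8 = 5 then w (.inr true) else 0

theorem k2 {Φ : Frm} (h : AxV Φ) (hμ : μ.Ok J) : (kap μ.n (Φ.fr 2)).val = 1 := by
  have := hμ.le
  have := hμ.two
  have : Fact (1 < 2 ^ μ.n) := ⟨Nat.one_lt_two_pow (by omega)⟩
  rw [h.kf1, ZMod.val_one]

omit [DecidableEq ι] in
theorem tht_fix {Φ : Frm} (h : AxV Φ) (hμ : μ.Ok J) (hw : W1 Φ μ pr P i1 w) :
    tht Φ μ pr P w ᵥ* bar μ.g = tht Φ μ pr P w := by
  have a := hw.fix none
  rw [show po pr none = 2 from rfl, k2 h hμ, pow_one] at a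
  rw [tht, add_vecMul, add_vecMul, sum_vecMul, a, sum_congr rfl fun l _ =>
    gG_fix (k := (kap μ.n (Φ.fr (pr l))).val) (hw.fix (some l))]
  split_ifs with c
  · rw [hw.five c]
  · rw [zero_vecMul]

/-- the test cocycle -/
theorem test (hC : SCC) (hD : SDC1) (hA : Ax S) (hL : Lb pr P i1) (hμ : μ.Ok J)
    (hφ : φ g = bar μ.g) (l' : ι) {x y : Fin ℓ → ℤ}
    (hx : (toLin' μ.g ^ 2 ^ min (lev (pr l')) μ.n) x - x = 2 • y) :
    ∃ ψ, CC S.Φ μ pr P 1 ψ ∧ (∀ l, rd ℓ (ψ (S.Φ.sg (pr l))) = rd ℓ (if l = l' then x else 0)) ∧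
      rd ℓ (ψ (S.Φ.sg 2)) = 0 ∧ ∀ h, rd ℓ (ψ h) = φ (cv g (fl S μ.n (pr l') h)) *ᵥ rd ℓ x
        + gG (bar μ.g) (kap μ.n h).val *ᵥ rd ℓ (ψ (S.Φ.fr 2)) := by
  have := hμ.le
  have := hμ.two
  obtain ⟨a1, a2, -⟩ := hC.adm _ _ _ _ _ hμ.adm
  obtain ⟨ψ, h1, h2, h3⟩ := hD.ex ι _ S pr P μ.n i1 _ (Mu _ 1) (fun l => if l = l' then x else 0) 0
    hA hL le_rfl (a1 1 _ (by omega)) (fun x => a2 _ x (by omega)) (fun l => by
      split_ifs with c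
      · rw [c, hx, mu1, rd_two]
      · simp) (by simp) (by simp)
  have h2' := fun l => mu1' (h2 l)
  have h3' := (mu1' h3).trans (map_zero _)
  refine ⟨ψ, h1, h2', h3', fun h => ?_⟩
  rw [mu1' ((hD.dec ι _ S pr P μ.n i1 _ (Mu _ 1) ψ hA hL le_rfl (a1 1 _ (by omega))
    (fun x => a2 _ x (by omega)) h1).2.2 h), map_add, map_add, map_nsmul, h3', smul_zero, add_zero,
    rd_gs, map_sum, sum_eq_single l' (fun l _ c => ?_) (by simp), rd_cw hφ, h2', if_pos rfl]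
  rw [rd_cw hφ, h2', if_neg c, map_zero, mulVec_zero]

/-- the pairing with a test cocycle -/
theorem pair (hC : SCC) (hA : Ax S) (hL : Lb pr P i1) (hμ : μ.Ok J) (hG : bar μ.g ^ 2 ^ μ.n = 1)
    (hw : w ∈ Ws S.Φ μ pr P i1 2) {l' : ι} {x y : Fin ℓ → ℤ}
    (hx : (toLin' μ.g ^ 2 ^ min (lev (pr l')) μ.n) x - x = 2 • y)
    (hy : μ.n ≤ lev (pr l') → rd ℓ y = 0) {ψ : Ga → Fin ℓ → ℤ} (h1 : CC S.Φ μ pr P 1 ψ)
    (h2 : ∀ l, rd ℓ (ψ (S.Φ.sg (pr l))) = rd ℓ (if l = l' then x else 0))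
    (h3 : rd ℓ (ψ (S.Φ.sg 2)) = 0) {c : F2}
    (h4 : rd ℓ (ψ S.Φ.f2) = rd ℓ (c.val • gs (toLin' μ.g) (2 ^ min (lev (pr l')) μ.n) x)) :
    ∑ l, w (.inl (some l)) ⬝ᵥ rd ℓ (ψ (S.Φ.fr (pr l)))
      + chi (dd pr P) (S.Φ.fr (pr l')) * (w (.inl (some l')) ⬝ᵥ rd ℓ x)
      + w (.inl (some l')) ⬝ᵥ rd ℓ y + w (.inl none) ⬝ᵥ rd ℓ (ψ (S.Φ.fr 2))
      + w (.inr false) ⬝ᵥ rd ℓ (ψ S.Φ.cj) + (if dd pr P % 8 = 5 then
        w (.inr true) ⬝ᵥ rd ℓ (ψ (S.Φ.fr 2)) + c * (w (.inr true) ⬝ᵥ rd ℓ y)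
        else w (.inr true) ⬝ᵥ rd ℓ (ψ S.Φ.f2)) = 0 := by
  have V := hA.one.v
  have o1 : rd ℓ (ψ 1) = 0 := mu1.1 (hC.one _ _ _ _ _ _ _ _ hA.one.z h1)
  have t := total (t := Sum.elim (fun o => o.elim (w (.inl none) ⬝ᵥ rd ℓ (ψ (S.Φ.fr 2))) fun l =>
      w (.inl (some l)) ⬝ᵥ rd ℓ (ψ (S.Φ.fr (pr l))) + if l = l' then
        chi (dd pr P) (S.Φ.fr (pr l')) * (w (.inl (some l')) ⬝ᵥ rd ℓ x)
          + w (.inl (some l')) ⬝ᵥ rd ℓ y else 0)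
    fun b => bif b then (if dd pr P % 8 = 5 then
        w (.inr true) ⬝ᵥ rd ℓ (ψ (S.Φ.fr 2)) + c * (w (.inr true) ⬝ᵥ rd ℓ y)
        else w (.inr true) ⬝ᵥ rd ℓ (ψ S.Φ.f2)) else w (.inr false) ⬝ᵥ rd ℓ (ψ S.Φ.cj))
    (fun ρ => ?_) (hw.2 ψ h1)
  · simp only [Fintype.sum_sum_type, Fintype.sum_option, Fintype.sum_bool, Sum.elim_inl,
      Sum.elim_inr, Option.elim, cond_true, cond_false, sum_add_distrib, sum_ite_eq', mem_univ,
      if_true] at t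
    linear_combination t
  rcases ρ with (_ | l) | (_ | _)
  · exact half0 (hw.1.fix none) h3
  · have f := hw.1.fix (some l)
    simp only [Sum.elim_inl, Option.elim]
    split_ifs with e
    · subst e
      obtain ⟨o, k1, k2⟩ := kval V μ.n (hL.odd l)
      have f' : w (.inl (some l)) ᵥ* bar μ.g ^ 2 ^ min (lev (pr l)) μ.n = w (.inl (some l)) := by
        rcases min_choice (lev (pr l)) μ.n with e | e <;> rw [e]
        · exact kfix V (hL.odd l) hG f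
        · rw [hG, vecMul_one]
      obtain ⟨y', a, b⟩ := mult f' hx o
      rw [← k1] at a
      obtain ⟨z, z1, z2⟩ := sgn μ.g (dd pr P) μ.n _ a
      obtain ⟨E, e1, e2⟩ := half (p := rws S.Φ pr P (.inl (some l))) f
        ((h2 l).trans (by rw [if_pos rfl])) z1
      refine ⟨E, e1, e2.trans ?_⟩
      rw [z2, dotProduct_add, dotProduct_smul, b, smul_eq_mul]
      rcases lt_or_ge (lev (pr l)) μ.n with c | c
      · rw [(ZMod.natCast_eq_one_iff_odd).2 (k2 c), one_mul]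
        rfl
      · rw [hy c, dotProduct_zero, mul_zero]
        rfl
    · rw [add_zero]
      exact half0 f ((h2 l).trans (by rw [if_neg e, map_zero]))
  · exact half0 (p := (S.Φ.cj, 1)) (by rw [V.kcj, ZMod.val_zero, pow_zero, vecMul_one]) o1
  · simp only [Sum.elim_inr, cond_true, rws, p4]
    split_ifs with e e'
    · have hd := (hC.lab ι S.Φ pr P i1 hA.one hL).2.1
      obtain ⟨E, e1, e2⟩ := half (d := dd pr P) (p := (S.Φ.fr 2, S.Φ.f2)) (z' := -(c.val • y))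
        (w := w (.inr true)) (by rw [k2 V hμ, pow_one, hw.1.five e]) h4 (by
          have := congrArg (fun T => T x) (mul_neg_geom_sum (toLin' μ.g)
            (2 ^ min (lev (pr l')) μ.n))
          simp only [Module.End.mul_apply, LinearMap.sub_apply, Module.End.one_apply] at this
          rw [acn, (V.codd _ hd).2.1, k2 V hμ, ZMod.val_zero, pow_zero, pow_one, one_mul,
            map_nsmul, ← smul_sub, gs, this, smul_neg, smul_comm, ← hx, ← smul_neg, neg_sub])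
      refine ⟨E, e1, e2.trans ?_⟩
      rw [map_neg, map_nsmul, dotProduct_neg, dotProduct_smul, nsmul_eq_mul,
        ZMod.natCast_zmod_val, ZMod.neg_eq_self_mod_two]
    · obtain ⟨E, e1, e2⟩ := half0 (d := dd pr P) (p := (S.Φ.f2 * S.Φ.sg 2, 1))
        (w := w (.inr true)) (g := μ.g) (n := μ.n) (by
          rw [hA.one.z.kmul, V.kf2, V.ksg _ _ Nat.prime_two, add_zero, ZMod.val_zero, pow_zero,
            vecMul_one]) o1
      refine ⟨E, e1, e2.trans ?_⟩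
      have := mu1' (h1.coc S.Φ.f2 (S.Φ.sg 2))
      rw [rd_acn, h3, mulVec_zero, map_sub, sub_eq_zero] at this
      rw [this]
    · exact half0 (p := (S.Φ.f2, 1)) (by rw [V.kf2, ZMod.val_zero, pow_zero, vecMul_one]) o1

theorem tau (hG : LG st au g (2 ^ μ.n)) (hφ : φ g = bar μ.g) (k : ℕ) :
    φ ((g - 1) ^ 2 ^ k) = bar μ.g ^ 2 ^ k - 1 := by
  rw [LMD.frob hG.lr.two, map_sub, map_pow, map_one, hφ]

theorem top (hG : LG st au g (2 ^ μ.n)) (hφ : φ g = bar μ.g) : bar μ.g ^ 2 ^ μ.n = 1 := by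
  rw [← hφ, ← map_pow, hG.pw, map_one]

omit [DecidableEq ι] in
theorem k0 {Φ : Frm} (h : AxV Φ) (hL : Lb pr P i1) (hG : LG st au g (2 ^ μ.n))
    (hφ : φ g = bar μ.g) (hw : W1 Φ μ pr P i1 w) (l : ι) :
    w (.inl (some l)) ᵥ* φ ((g - 1) ^ 2 ^ lev (pr l)) = 0 := by
  rw [tau hG hφ, vecMul_sub, vecMul_one, kfix h (hL.odd l) (top hG hφ) (hw.fix (some l)), sub_self]

/-- the column identity -/
theorem key (hΛ : SLAM) (hC : SCC) (hD : SDC1) (hY : SSY2) (hA : Ax S) (hL : Lb pr P i1)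
    (hμ : μ.Ok J) (hG : LG st au g (2 ^ μ.n)) (hφ : φ g = bar μ.g)
    (hM : Cg g μ.n (fun i => lev (pr i)) (MX S.D μ.n g pr P) M') (hw : w ∈ Ws S.Φ μ pr P i1 2)
    (l' : ι) {x y : Fin ℓ → ℤ} (hx : (toLin' μ.g ^ 2 ^ min (lev (pr l')) μ.n) x - x = 2 • y)
    (hy : μ.n ≤ lev (pr l') → rd ℓ y = 0) :
    (∑ l, (w (.inl (some l)) + tht S.Φ μ pr P w) ᵥ* φ (M' l l') + eps (pr l') • tht S.Φ μ pr P w
      + w (.inr false) ᵥ* φ (cX S.D μ.n g (pr l'))) ⬝ᵥ rd ℓ x + w (.inl (some l')) ⬝ᵥ rd ℓ y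
      + fl S μ.n (pr l') S.Φ.f2 0 * (if dd pr P % 8 = 5 then w (.inr true) ⬝ᵥ rd ℓ y else
        w (.inr true) ᵥ* gG (bar μ.g) (2 ^ min (lev (pr l')) μ.n) ⬝ᵥ rd ℓ x) = 0 := by
  have V := hA.one.v
  have := hμ.le
  have := hμ.two
  obtain ⟨ψ, h1, h2, h3, ev⟩ := test hC hD hA hL hμ hφ l' hx
  have g0 : gG (bar μ.g) (0 : ZMod (2 ^ μ.n)).val = 0 := by simp [gG]
  have h4 : rd ℓ (ψ S.Φ.f2) = rd ℓ ((fl S μ.n (pr l') S.Φ.f2 0).val •
      gs (toLin' μ.g) (2 ^ min (lev (pr l')) μ.n) x) := by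
    rw [ev, V.kf2, g0, zero_mulVec, add_zero, ← rd_cw hφ, cw_f2 hA.two _ (hL.odd l'),
      LinearMap.smul_apply]
  have p := pair hC hA hL hμ (top hG hφ) hw hx hy h1 h2 h3 h4
  have hθ : tht S.Φ μ pr P w ᵥ* φ g = tht S.Φ μ pr P w := hφ ▸ tht_fix V hμ hw.1
  have kx : ∀ (v : Vb ℓ) (h : Λ), (g - 1) ^ 2 ^ min (lev (pr l')) μ.n ∣ h →
      v ᵥ* φ h ⬝ᵥ rd ℓ x = 0 := by
    rintro v _ ⟨c, rfl⟩
    rw [← dotProduct_mulVec, mul_comm, map_mul, ← mulVec_mulVec, tau hG hφ, sub_mulVec, one_mulVec,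
      ← rd_pow, ← map_sub, hx, rd_two, mulVec_zero, dotProduct_zero]
  have err : ∀ l (h : Λ), (g - 1) ^ 2 ^ min (min (lev (pr l)) (lev (pr l'))) μ.n ∣ h →
      w (.inl (some l)) ᵥ* φ h ⬝ᵥ rd ℓ x = 0 := fun l h c => by
    rw [min_assoc] at c
    rcases min_choice (lev (pr l)) (min (lev (pr l')) μ.n) with e | e <;> rw [e] at c
    · obtain ⟨c, rfl⟩ := c
      rw [map_mul, ← vecMul_vecMul, k0 V hL hG hφ hw.1, zero_vecMul, zero_dotProduct]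
    · exact kx _ _ c
  obtain ⟨y1, y2⟩ := hY.ent ι Λ S st au g μ.n μ.n pr P i1 hA hG hL le_rfl
  have e1 : ∀ l, w (.inl (some l)) ᵥ* φ (M' l l') ⬝ᵥ rd ℓ x
      = w (.inl (some l)) ⬝ᵥ φ (cv g (fl S μ.n (pr l') (S.Φ.fr (pr l)))) *ᵥ rd ℓ x + if l = l' then
        chi (dd pr P) (S.Φ.fr (pr l')) * (w (.inl (some l')) ⬝ᵥ rd ℓ x) else 0 := fun l => by
    have := err l _ (dvd_add (hM l l') (y1 l l'))
    rw [sub_add_sub_cancel, map_sub, vecMul_sub, sub_dotProduct, sub_eq_zero, map_add, vecMul_add,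
      add_dotProduct] at this
    rw [this, dotProduct_mulVec]
    split_ifs with c
    · rw [c, map_natCast, ← nsmul_one, vecMul_smul, vecMul_one, smul_dotProduct, nsmul_eq_mul,
        ZMod.natCast_zmod_val]
    · simp
  have e2 := kx (w (.inr false)) _ (y2 l')
  rw [map_sub, vecMul_sub, sub_dotProduct, sub_eq_zero] at e2
  obtain ⟨-, -, -, -, gP, lP, eP, -⟩ := hC.lab ι S.Φ pr P i1 hA.one hL
  have e3 := congrArg (tht S.Φ μ pr P w ⬝ᵥ ·) ((mu1.1 h1.nrm).symm.trans (ev _))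
  obtain ⟨o, o1, o2⟩ := kval V μ.n gP
  have ch := hD.ch S μ.n (pr l') (S.Φ.fr P) hA (hL.odd l')
  rw [V.cm.2.2.2.2 P gP, eP, mul_zero, add_zero, V.cfr P _ gP fun c =>
    hL.ne l' ((Nat.prime_dvd_prime_iff_eq hL.prime (hL.odd l').1).1 c).symm] at ch
  rw [lP, Nat.zero_min, pow_zero, one_mul] at o1
  simp only [dotProduct_add, dotProduct_mulVec, fix_cv hθ, fix_gG (hφ ▸ hθ), smul_dotProduct,
    dotProduct_zero, ← ch, o1, smul_eq_mul] at e3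
  rw [nsmul_eq_mul, ZMod.natCast_eq_one_iff_odd.2 (o2 (by omega)), one_mul] at e3
  have e4 : ∀ l, tht S.Φ μ pr P w ᵥ* φ (M' l l') = Sm0 pr P l l' • tht S.Φ μ pr P w := fun l => by
    have a : au (M' l l' - MX S.D μ.n g pr P l l') = 0 :=
      (hG.lr.ker _).2 ((dvd_pow_self _ (by positivity)).trans (hM l l'))
    rw [map_sub, sub_eq_zero] at a
    obtain ⟨f, hf⟩ := hG.bij.2 (M' l l')
    rw [← (hY.aus ι Λ S.D st au g μ.n pr P hG hL.odd).1, map_apply, ← a, ← hf, fix_cv hθ,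
      hΛ.au Λ _ st au g hG]
  have e5 := hY.col ι pr P i1 l' hL
  have e6 : tht S.Φ μ pr P w ⬝ᵥ rd ℓ (ψ (S.Φ.fr 2)) = ∑ l, w (.inl (some l)) ⬝ᵥ
      gG (bar μ.g) (kap μ.n (S.Φ.fr (pr l))).val *ᵥ rd ℓ (ψ (S.Φ.fr 2))
      + w (.inl none) ⬝ᵥ rd ℓ (ψ (S.Φ.fr 2))
      + if dd pr P % 8 = 5 then w (.inr true) ⬝ᵥ rd ℓ (ψ (S.Φ.fr 2)) else 0 := by
    simp only [tht, add_dotProduct, sum_dotProduct, dotProduct_mulVec]
    split_ifs <;> simp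
  rw [sum_congr rfl fun l _ => by rw [ev, dotProduct_add], sum_add_distrib, ev S.Φ.cj, V.kcj, g0,
    zero_mulVec, add_zero, dotProduct_mulVec _ (φ (cv g (fl S μ.n (pr l') S.Φ.cj))), ← e2, h4,
    map_nsmul, rd_gs, dotProduct_smul, nsmul_eq_mul, ZMod.natCast_zmod_val,
    dotProduct_mulVec (w (.inr true))] at p
  simp only [add_vecMul, add_dotProduct, sum_dotProduct, e1, e4, smul_dotProduct, sum_add_distrib,
    sum_ite_eq', mem_univ, if_true, smul_eq_mul, ← sum_mul, e5]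
  split_ifs at p e6 ⊢
  · linear_combination p + e6 + e3 + (eps (pr l') * (tht S.Φ μ pr P w ⬝ᵥ rd ℓ x)
      + lg (pr l') P * (tht S.Φ μ pr P w ⬝ᵥ rd ℓ x)) * two0
  · linear_combination p + e6 + e3 + (eps (pr l') * (tht S.Φ μ pr P w ⬝ᵥ rd ℓ x)
      + lg (pr l') P * (tht S.Φ μ pr P w ⬝ᵥ rd ℓ x)) * two0

end Key

theorem rd_tau (g : Matrix (Fin ℓ) (Fin ℓ) ℤ) (k : ℕ) (y : Fin ℓ → ℤ) :
    rd ℓ (((toLin' g - 1) ^ k) y) = (bar g - 1) ^ k *ᵥ rd ℓ y := by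
  induction k with
  | zero => simp
  | succ k ih =>
    rw [pow_succ', pow_succ', Module.End.mul_apply, LinearMap.sub_apply, map_sub, rd_bar,
      Module.End.one_apply, ih, ← mulVec_mulVec, sub_mulVec, one_mulVec]

theorem ext2 {v v' : Vb ℓ} (h : ∀ y, v ⬝ᵥ rd ℓ y + v' ⬝ᵥ rd ℓ y = 0) : v = v' :=
  dotProduct_eq _ _ fun y => by
    obtain ⟨y, rfl⟩ := rd_surj y
    linear_combination h y - (v' ⬝ᵥ rd ℓ y) * two0

end DS

open DS in
theorem rowDS : OfDS := by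
  intro _ hΛ _ hC hD hY _ _ ι Λ _ _ _ ℓ S μ pr P J i1 st au g φ M' hA hL hμ hG hφ hM w hw
  have V := hA.one.v
  have := hμ.le
  have := hμ.two
  have K := fun l' x y => key hΛ hC hD hY hA hL hμ hG hφ hM hw l' (x := x) (y := y)
  obtain ⟨-, a2, a3, a4⟩ := hC.adm _ _ _ _ _ hμ.adm
  refine ⟨tht S.Φ μ pr P w, fun i => if dd pr P % 8 = 5 then
      (if i < μ.a then w (.inr true) else w (.inr true) ᵥ* bar μ.s) else
      if i < μ.a then w (.inr true) ᵥ* gG (bar μ.g) (2 ^ i) ᵥ* vo φ g (bar μ.u) μ.a i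
      else w (.inr true) ᵥ* gG (bar μ.g) (2 ^ i),
    ⟨k0 V hL hG hφ hw.1, hφ ▸ tht_fix V hμ hw.1, hw.1.one, fun l' => ?_⟩, fun h0 => ?_⟩
  · replace K := K l'
    generalize ∑ l, (w (.inl (some l)) + tht S.Φ μ pr P w) ᵥ* φ (M' l l')
      + eps (pr l') • tht S.Φ μ pr P w + w (.inr false) ᵥ* φ (cX S.D μ.n g (pr l')) = R at K ⊢
    rw [rlD]
    by_cases c : lev (pr l') < μ.a
    · obtain ⟨v, v1, -, v3⟩ := a4 _ c
      rw [min_eq_left (by omega)] at K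
      rw [if_pos c, if_pos c, if_pos c]
      refine ext2 fun y => ?_
      obtain ⟨y', b1, b2⟩ := mu2 (v3 y)
      have k := K _ _ b1 fun a => by omega
      have e : rd ℓ (v y) = vo φ g (bar μ.u) μ.a (lev (pr l')) *ᵥ rd ℓ y := by
        rw [mu1' (v1 y), Module.End.mul_apply, rd_tau, rd_bar, mulVec_mulVec, vo, map_pow, map_sub,
          map_one, hφ]
      rw [b2, e, dotProduct_mulVec, dotProduct_mulVec] at k
      rw [add_dotProduct, smul_dotProduct, smul_eq_mul]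
      split_ifs at k ⊢ <;> linear_combination k
    rw [if_neg c, if_neg c, if_neg c]
    by_cases c' : lev (pr l') = μ.a
    · rw [min_eq_left (by omega), c'] at K
      rw [if_pos c', c']
      refine ext2 fun x => ?_
      obtain ⟨y', b1, b2⟩ := mu2 (hμ.adm.hs x)
      have k := K _ _ b1 fun a => by omega
      rw [b2, rd_bar, dotProduct_mulVec, dotProduct_mulVec] at k
      rw [add_dotProduct, smul_dotProduct, smul_eq_mul]
      split_ifs at k ⊢ <;> linear_combination k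
    · rw [if_neg c']
      refine ext2 fun x => ?_
      have m : μ.a < min (lev (pr l')) μ.n := by omega
      obtain ⟨y', b1, b2⟩ := mu2 (y := 0) (by simpa using a3 _ x m)
      rw [map_zero] at b2
      have k := K _ _ b1 fun _ => b2
      rw [b2, ← dotProduct_mulVec, ← rd_gs, mu1.1 (a2 _ x m)] at k
      simpa using k
  by_contra hn
  simp only [not_or, not_not] at hn
  obtain ⟨z1, z2, z3⟩ := hn
  replace z1 : ∀ l, w (.inl (some l)) = 0 := congrFun z1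
  have z4 := z2
  simp only [tht, z1, zero_vecMul, sum_const_zero, zero_add] at z4
  suffices h : w (.inl none) = 0 ∧ w (.inr true) = 0 by
    refine h0 (funext fun ρ => ?_)
    rcases ρ with (_ | l) | (_ | _)
    exacts [h.1, z1 l, z3, h.2]
  split_ifs at z4 with c
  · have := hw.1.two (by omega)
    exact ⟨this, by rwa [this, zero_add] at z4⟩
  refine ⟨by rwa [add_zero] at z4, (Submodule.disjoint_def.1 (K4_spec (bar μ.g)).disjoint) _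
    (fun x hx => ?_) (hw.1.four c)⟩
  obtain ⟨x, rfl⟩ := rd_surj x
  obtain ⟨-, -, -, -, -, -, -, l1, -⟩ := hC.lab ι S.Φ pr P i1 hA.one hL
  obtain ⟨y, hy⟩ := rd_zero (y := toLin' μ.g x - x) (by rw [map_sub, rd_bar, hx, sub_self])
  have k := K i1 x y (by rwa [l1, Nat.zero_min, pow_zero, pow_one]) fun a => by omega
  have ch := hD.ch S μ.n (pr i1) S.Φ.f2 hA (hL.odd i1)
  have o : Odd (pr i1) := Nat.odd_iff.2 (by have := hL.five; omega)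
  rw [(V.codd _ o).2.2, if_pos (.inr hL.five), V.cm.2.2.2.1, mul_zero, add_zero,
    sum_eq_single 0 (fun b _ hb => by
      rw [fl_f2 hA.two _ (hL.odd i1), l1, Nat.zero_min, pow_zero, if_neg]
      rwa [Nat.lt_one_iff, ZMod.val_eq_zero]) (by simp)] at ch
  simpa [z1, z2, z3, ← ch, c, l1, gG] using k

end Pool.Agent.MP_1246c0_nt.H25
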