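import Pool.Agent.MP_1246c0_nt.H25.SpecA
import Pool.Agent.MP_1246c0_nt.H87.EIG

/-! Eigenfunctionals modulo a power of two, with a bound for the coefficient ring. -/

set_option autoImplicit false

namespace Pool.Agent.MP_1246c0_nt.H25

open NumberField Polynomial Finset
open Pool.Agent.MP_1246c0_nt.H12
open scoped IntermediateField

namespace EG2

theorem mem_span {O : Type} [CommRing O] {j : ℕ} {x : O} :
    x ∈ Mu O j ↔ x ∈ Ideal.span {(2 : O) ^ j} := by
  rw [mem_Mu, Ideal.mem_span_singleton']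
  refine exists_congr fun y => ?_
  rw [nsmul_eq_mul, mul_comm]
  push_cast
  rfl

/-- the index of the doubles in a localisation -/
theorem idx (E : Type) [Field E] [NumberField E] (P : Ideal (𝓞 E)) [P.IsMaximal]
    [IsDiscreteValuationRing (Localization.AtPrime P)]
    [CharZero (Localization.AtPrime P)] :
    (Mu (Localization.AtPrime P) 1).index ∣ 2 ^ Module.finrank ℚ E := by
  obtain ⟨n, hn⟩ := exists_maximalIdeal_pow_eq_of_principal (Localization.AtPrime P)
    inferInstance (Ideal.span {(2 : Localization.AtPrime P) ^ 1})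
    (by rw [Ne, Ideal.span_singleton_eq_bot]; exact pow_ne_zero _ two_ne_zero)
  let φ : 𝓞 E →+ Localization.AtPrime P ⧸ Mu (Localization.AtPrime P) 1 :=
    (QuotientAddGroup.mk' _).comp (algebraMap (𝓞 E) (Localization.AtPrime P)).toAddMonoidHom
  have hs : Function.Surjective φ := fun z => by
    obtain ⟨y, rfl⟩ := QuotientAddGroup.mk'_surjective _ z
    obtain ⟨b', hb⟩ := (IsLocalization.AtPrime.equivQuotMaximalIdealPow P
      (Localization.AtPrime P) n).surjective (Ideal.Quotient.mk _ y)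
    obtain ⟨b, rfl⟩ := Ideal.Quotient.mk_surjective b'
    rw [IsLocalization.AtPrime.equivQuotMaximalIdealPow_apply_mk, Ideal.Quotient.eq, ← hn,
      ← mem_span] at hb
    exact ⟨b, QuotientAddGroup.eq_iff_sub_mem.2 hb⟩
  have h1 : φ.ker.index = (Mu (Localization.AtPrime P) 1).index := by
    rw [AddSubgroup.index_ker, AddMonoidHom.range_eq_top.2 hs, AddSubgroup.card_top]
    rfl
  have h2 : (Ideal.span {((2 : ℕ) : 𝓞 E)}).toAddSubgroup ≤ φ.ker := fun x hx => by
    obtain ⟨y, rfl⟩ := Ideal.mem_span_singleton'.1 hx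
    refine (QuotientAddGroup.eq_zero_iff _).2 (mem_span.2 (Ideal.mem_span_singleton'.2
      ⟨algebraMap _ _ y, ?_⟩))
    change _ = algebraMap (𝓞 E) (Localization.AtPrime P) (y * ((2 : ℕ) : 𝓞 E))
    rw [map_mul, map_natCast, pow_one]
    rfl
  rw [← h1, ← RingOfIntegers.rank, ← Ideal.absNorm_span_natCast, Ideal.absNorm_eq_index]
  exact AddSubgroup.index_dvd_of_le h2

/-- a discrete valuation ring above two that contains a root of a given monic polynomial -/
theorem ring (f : ℤ[X]) (hf : f.Monic) (hd : f.degree ≠ 0) :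
    ∃ (O : Type) (_ : CommRing O) (_ : IsDomain O) (_ : IsDiscreteValuationRing O)
      (_ : CharZero O) (_ : Finite (IsLocalRing.ResidueField O)) (u : O),
      ¬IsUnit (2 : O) ∧ (f.map (Int.castRingHom O)).eval u = 0 ∧
      (Mu O 1).index ≠ 0 ∧ (Mu O 1).index ≤ 2 ^ f.natDegree := by
  set g : ℚ[X] := f.map (Int.castRingHom ℚ) with hg
  have hgm : g.Monic := hf.map _
  obtain ⟨x, hx⟩ := Splits.exists_eval_eq_zero (SplittingField.splits g) (by
    rw [degree_map, hg, hf.degree_map]; exact hd)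
  rw [eval_map_algebraMap] at hx
  have hi : IsIntegral ℚ x := ⟨g, hgm, hx⟩
  let E := ℚ⟮x⟯
  have : FiniteDimensional ℚ E := IntermediateField.adjoin.finiteDimensional hi
  have : NumberField E := {}
  have hE : Module.finrank ℚ E ≤ f.natDegree := by
    rw [IntermediateField.adjoin.finrank hi, ← hf.natDegree_map (Int.castRingHom ℚ)]
    exact natDegree_le_of_dvd (minpoly.dvd ℚ x hx) hgm.ne_zero
  have hx' : aeval (IntermediateField.AdjoinSimple.gen ℚ x) f = 0 := by
    apply (algebraMap E g.SplittingField).injective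
    rw [← aeval_algebraMap_apply, map_zero]
    exact (aeval_map_algebraMap ℚ x f).symm.trans hx
  let u₀ : 𝓞 E := ⟨IntermediateField.AdjoinSimple.gen ℚ x, f, hf, hx'⟩
  have hu₀ : aeval u₀ f = 0 := by
    apply RingOfIntegers.coe_injective
    rw [← aeval_algebraMap_apply, map_zero]
    exact hx'
  have h2 : ¬IsUnit (2 : 𝓞 E) := fun h => by
    have := (isUnit_map_iff (algebraMap ℤ (𝓞 E)) 2).1 (by simpa using h)
    rw [Int.isUnit_iff] at this
    omega
  obtain ⟨P, hP, hle⟩ := Ideal.exists_le_maximal (Ideal.span {(2 : 𝓞 E)})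
    (by rwa [Ne, Ideal.span_singleton_eq_top])
  have h2P : (2 : 𝓞 E) ∈ P := hle (Ideal.mem_span_singleton_self _)
  have hP0 : P ≠ ⊥ := fun h => by
    rw [h, Ideal.mem_bot] at h2P
    exact two_ne_zero h2P
  have i1 : IsDiscreteValuationRing (Localization.AtPrime P) :=
    IsLocalization.AtPrime.isDiscreteValuationRing_of_dedekind_domain _ hP0 _
  have i2 : CharZero (Localization.AtPrime P) :=
    charZero_of_injective_algebraMap (IsLocalization.injective _ P.primeCompl_le_nonZeroDivisors)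
  have h3 := idx E P
  refine ⟨Localization.AtPrime P, inferInstance, inferInstance, i1, i2,
    Finite.of_equiv _ (IsLocalization.AtPrime.equivQuotMaximalIdeal P _).toEquiv,
    algebraMap (𝓞 E) _ u₀, fun h => ?_, ?_, fun h => ?_,
    (Nat.le_of_dvd (by positivity) h3).trans (Nat.pow_le_pow_right two_pos hE)⟩
  · exact (IsLocalization.AtPrime.isUnit_to_map_iff (Localization.AtPrime P) P 2).1
      (by rwa [map_ofNat]) h2P
  · have := congrArg (algebraMap (𝓞 E) (Localization.AtPrime P)) hu₀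
    rw [map_zero, aeval_def, hom_eval₂] at this
    rw [eval_map, ← this]
    congr 1
    exact RingHom.ext_int _ _
  · rw [h, zero_dvd_iff] at h3
    exact absurd h3 (by positivity)

end EG2

theorem rowEG2 : OfEG2 := by
  intro hG M _ _ T ρ J n hJ hT h2 hρ hy
  obtain ⟨l, i, π, l1, l2, hs, hk⟩ := hG M ρ J h2 hρ hy
  have kT : ∀ x, π x = 0 → π (T x) = 0 := fun x hx => by
    obtain ⟨y, hy⟩ := mem_Mu.1 ((hk x).1 hx)
    exact (hk _).2 (mem_Mu.2 ⟨T y, by rw [← map_nsmul, hy, map_nsmul]⟩)
  choose b hb using fun j => hs (Pi.single j 1)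
  have lin : ∀ x k, π (T x) k = ∑ j, π x j * π (T (b j)) k := fun x k => by
    have e : π (x - ∑ j, (π x j).val • b j) = 0 := by
      rw [map_sub, map_sum, sub_eq_zero]
      funext m
      rw [Finset.sum_apply, sum_eq_single m (fun j _ hj => by
        rw [map_nsmul, hb, Pi.smul_apply, Pi.single_eq_of_ne hj.symm, smul_zero]) (by simp),
        map_nsmul, hb, Pi.smul_apply, Pi.single_eq_same, nsmul_eq_mul, mul_one,
        ZMod.natCast_zmod_val]
    have := kT _ e
    rw [map_sub, map_sub, sub_eq_zero, map_sum, map_sum] at this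
    rw [this, Finset.sum_apply]
    refine sum_congr rfl fun j _ => ?_
    rw [map_nsmul, map_nsmul, Pi.smul_apply, nsmul_eq_mul, ZMod.natCast_zmod_val]
  choose A hA using fun j k => ZMod.intCast_surjective (π (T (b j)) k)
  let B : Matrix (Fin l) (Fin l) ℤ := Matrix.of fun k j => A j k
  obtain ⟨O, _, _, _, _, _, u, hO, hu, i1, i2⟩ := EG2.ring B.charpoly B.charpoly_monic (by
    rw [Matrix.charpoly_degree_eq_dim, Fintype.card_fin]; exact_mod_cast (by omega : l ≠ 0))
  rw [Matrix.charpoly_natDegree_eq_dim, Fintype.card_fin] at i2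
  rw [← Matrix.charpoly_map, Matrix.eval_charpoly] at hu
  obtain ⟨e, he, i₀, hi₀⟩ := EIG.vec _ hu
  have hev : ∀ j, ∑ k, (A j k : O) * e k = u * e j := fun j => by
    have := congrFun he j
    rw [Matrix.vecMul_sub, Matrix.scalar_apply, Pi.sub_apply, Matrix.vecMul_diagonal,
      Pi.zero_apply, sub_eq_zero] at this
    rw [mul_comm u, this]
    exact sum_congr rfl fun k _ => mul_comm _ _
  obtain ⟨q, hq⟩ : ∃ q : O →+* O ⧸ Ideal.span {(2 : O) ^ J}, q = Ideal.Quotient.mk _ := ⟨_, rfl⟩
  have hq0 : ∀ x, q x = 0 ↔ x ∈ Mu O J := fun x => by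
    rw [hq, Ideal.Quotient.eq_zero_iff_mem, EG2.mem_span]
  have hch : ringChar (O ⧸ Ideal.span {(2 : O) ^ J}) ∣ 2 ^ J := by
    rw [← ringChar.spec, ← map_natCast q, hq0]
    exact mem_Mu.2 ⟨1, by simp⟩
  let c := ZMod.castHom hch (O ⧸ Ideal.span {(2 : O) ^ J})
  obtain ⟨lam, hlam⟩ : ∃ lam : M → O, ∀ x, lam x = ∑ k, ((π x k).val : O) * e k := ⟨_, fun _ => rfl⟩
  have hχ : ∀ x, q (lam x) = ∑ k, c (π x k) * q (e k) := fun x => by
    rw [hlam, map_sum]
    refine sum_congr rfl fun k _ => ?_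
    rw [map_mul, map_natCast, ← map_natCast c, ZMod.natCast_zmod_val]
  have heig : ∀ x, q (lam (T x)) = q u * q (lam x) := fun x => by
    rw [hχ, hχ, mul_sum, sum_congr rfl fun k _ => by rw [lin x k, map_sum, sum_mul], sum_comm]
    refine sum_congr rfl fun j _ => ?_
    have := congrArg q (hev j)
    rw [map_sum, map_mul] at this
    rw [mul_left_comm, ← this, mul_sum]
    refine sum_congr rfl fun k _ => ?_
    rw [← hA, map_mul, map_mul, map_intCast, map_intCast, mul_assoc]
  have hit : ∀ (k : ℕ) x, q (lam ((T ^ k) x)) = q (u ^ k) * q (lam x) := fun k x => by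
    induction k with
    | zero => simp
    | succ k ih => rw [pow_succ', Module.End.mul_apply, heig, ih, ← mul_assoc, ← map_mul, pow_succ']
  have h1 : lam (b i₀) = 1 := by
    have : Fact (1 < 2 ^ J) := ⟨Nat.one_lt_two_pow (by omega)⟩
    rw [hlam, hb, sum_eq_single i₀ (fun k _ hk => by simp [hk]) (by simp)]
    simp [hi₀, ZMod.val_one]
  have hd : (2 : O) ^ J ∣ om n (u - 1) := by
    have := hit (2 ^ n) (b i₀)
    rw [hT, Module.End.one_apply, h1, map_one, mul_one, eq_comm, ← map_one q, ← sub_eq_zero,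
      ← map_sub, hq0, EG2.mem_span, Ideal.mem_span_singleton] at this
    rwa [om, add_sub_cancel]
  have hd2 : (2 : O) ∣ om n (u - 1) := (dvd_pow_self 2 (by omega)).trans hd
  refine ⟨O, inferInstance, inferInstance, inferInstance, inferInstance, inferInstance, u - 1, lam,
    ⟨hO, fun ht => hO ?_, n, hd2⟩, i1, i2.trans (Nat.pow_le_pow_right two_pos l2), hd,
    fun x y => ?_, fun x => ?_, by simp [hlam], b i₀, h1 ▸ isUnit_one⟩
  · obtain ⟨r, hr⟩ := exists_add_pow_prime_pow_eq Nat.prime_two (1 : O) (u - 1) n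
    obtain ⟨s, hs⟩ := hd2
    refine isUnit_of_dvd_unit ⟨s - (u - 1) * r, ?_⟩ (ht.pow (2 ^ n))
    rw [om, hr, one_pow] at hs
    push_cast at hs
    linear_combination hs
  · rw [← hq0, map_sub, map_sub, hχ, hχ, hχ, ← sum_sub_distrib, ← sum_sub_distrib]
    exact sum_eq_zero fun k _ => by rw [map_add, Pi.add_apply, map_add]; ring
  · rw [← hq0, add_sub_cancel, map_sub, map_mul, heig, sub_self]

end Pool.Agent.MP_1246c0_nt.H25
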