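import Pool.Agent.MP_1246c0_nt.H55.SpecC

/-! A lower bound for the number of fundamental discriminants in a class modulo `3`. -/

namespace Pool.Agent.MP_1246c0_nt.H56

open Filter Finset H55

theorem crt1 {m n : ℕ} (h : m.Coprime n) (hm : 0 < m) (hn : 0 < n) (f g : ℕ → ℝ)
    (hf : ∀ x x', x ≡ x' [MOD m] → f x = f x') (hg : ∀ x x', x ≡ x' [MOD n] → g x = g x') :
    ∑ x ∈ range (m * n), f x * g x = (∑ x ∈ range m, f x) * ∑ x ∈ range n, g x := by
  rw [sum_mul_sum, ← sum_product']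
  refine sum_bij (fun x _ => (x % m, x % n)) (fun x _ => ?_) (fun x hx y hy hxy => ?_)
    (fun v hv => ?_) fun x _ => ?_
  · simp [Nat.mod_lt, hm, hn]
  · obtain ⟨h1, h2⟩ := Prod.mk.inj hxy
    exact Nat.ModEq.eq_of_lt_of_lt ((Nat.modEq_and_modEq_iff_modEq_mul h).1 ⟨h1, h2⟩)
      (mem_range.1 hx) (mem_range.1 hy)
  · obtain ⟨h1, h2⟩ := mem_product.1 hv
    refine ⟨Nat.chineseRemainder h v.1 v.2,
      mem_range.2 (Nat.chineseRemainder_lt_mul h _ _ hm.ne' hn.ne'), Prod.ext ?_ ?_⟩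
    · exact Eq.trans (Nat.chineseRemainder h v.1 v.2).2.1 (Nat.mod_eq_of_lt (mem_range.1 h1))
    · exact Eq.trans (Nat.chineseRemainder h v.1 v.2).2.2 (Nat.mod_eq_of_lt (mem_range.1 h2))
  · rw [hf _ _ (Nat.mod_modEq x m), hg _ _ (Nat.mod_modEq x n)]

theorem crtS (m : ℕ → ℕ) (T : Finset ℕ) (h0 : ∀ p ∈ T, 0 < m p)
    (hT : ∀ p ∈ T, ∀ q ∈ T, p ≠ q → (m p).Coprime (m q)) (u : ℕ → ℕ → ℝ)
    (hu : ∀ p ∈ T, ∀ x x', x ≡ x' [MOD m p] → u p x = u p x') :
    ∑ x ∈ range (∏ p ∈ T, m p), ∏ p ∈ T, u p x = ∏ p ∈ T, ∑ x ∈ range (m p), u p x := by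
  induction T using Finset.induction_on with
  | empty => simp
  | insert r T hr ih =>
    have h1 := fun s hs => h0 s (mem_insert_of_mem (a := s) (b := r) hs)
    have h2 := fun s hs => hu s (mem_insert_of_mem (a := s) (b := r) hs)
    have h3 := mem_insert_self r T
    simp only [prod_insert hr]
    rw [← ih h1 (fun p hp q hq => hT p (mem_insert_of_mem hp) q (mem_insert_of_mem hq)) h2]
    refine crt1 (Nat.Coprime.prod_right fun s hs =>
      hT r h3 s (mem_insert_of_mem hs) fun e => hr (e ▸ hs)) (h0 r h3)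
      (prod_pos h1) _ _ (hu r h3) fun x x' hx => ?_
    exact prod_congr rfl fun s hs => h2 s hs _ _ (hx.of_dvd (dvd_prod_of_mem _ hs))

theorem per_mul (d : ℕ) (g : ℕ → ℝ) (hg : ∀ x x', x ≡ x' [MOD d] → g x = g x') (q r : ℕ) :
    ∑ x ∈ range (d * q + r), g x = q * ∑ x ∈ range d, g x + ∑ x ∈ range r, g x := by
  have key : ∀ q r : ℕ, ∑ x ∈ range r, g (d * q + x) = ∑ x ∈ range r, g x := fun q r =>
    sum_congr rfl fun x _ => hg _ _ (by simp [Nat.ModEq])
  rw [sum_range_add, key]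
  refine congrArg (· + _) ?_
  induction q with
  | zero => simp
  | succ q ih => rw [Nat.mul_succ, sum_range_add, key, ih]; push_cast; ring

theorem per_err (d : ℕ) (hd : 0 < d) (g : ℕ → ℝ) (hg : ∀ x x', x ≡ x' [MOD d] → g x = g x')
    (h0 : ∀ x, 0 ≤ g x) (X : ℕ) :
    X * ((∑ x ∈ range d, g x) / d) - ∑ x ∈ range d, g x ≤ ∑ x ∈ range X, g x := by
  have e := Nat.div_add_mod X d
  have hr := Nat.mod_lt X hd
  set q := X / d
  set r := X % d
  set t := ∑ x ∈ range d, g x with ht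
  have h1 : 0 ≤ t := sum_nonneg fun x _ => h0 x
  have h2 : 0 ≤ ∑ x ∈ range r, g x := sum_nonneg fun x _ => h0 x
  have hd' : (0 : ℝ) < d := by exact_mod_cast hd
  have h3 : (r : ℝ) * (t / d) ≤ t := by
    rw [mul_div_assoc', div_le_iff₀ hd', mul_comm]
    exact mul_le_mul_of_nonneg_left (by exact_mod_cast hr.le) h1
  have h5 : (X : ℝ) * (t / d) = q * t + r * (t / d) := by
    rw [← e]; push_cast; field_simp
  rw [h5, ← e, per_mul d g hg]
  linarith

/-- the modulus at `p` -/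
def md (p : ℕ) : ℕ := if p = 2 then 16 else p ^ 2

/-- the local condition at `p` -/
def Loc (c p D : ℕ) : Prop :=
  if p = 2 then D % 4 = 1 ∨ D % 16 = 8 ∨ D % 16 = 12
  else if p = 3 then D % 3 = c ∧ D % 9 ≠ 0 else ¬ p ^ 2 ∣ D

instance (c p D : ℕ) : Decidable (Loc c p D) := by unfold Loc; infer_instance

theorem loc_per (c p x x' : ℕ) (h : x ≡ x' [MOD md p]) : Loc c p x ↔ Loc c p x' := by
  unfold Loc
  unfold md at h
  split_ifs with h2 h3
  · rw [if_pos h2, Nat.ModEq] at h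
    omega
  · rw [if_neg h2, h3, Nat.ModEq] at h
    omega
  · rw [if_neg h2] at h
    exact not_congr (h.dvd_iff dvd_rfl)

theorem md_pos {p : ℕ} (hp : p.Prime) : 0 < md p := by
  unfold md
  split_ifs
  · norm_num
  · exact pow_pos hp.pos _

theorem md_pow (p : ℕ) : ∃ k, md p = p ^ k := by
  unfold md
  split_ifs with h
  · exact ⟨4, by rw [h]; norm_num⟩
  · exact ⟨2, rfl⟩

theorem loc3 {c : ℕ} (hc : c < 3) :
    (∑ x ∈ range (md 3), if Loc c 3 x then (1 : ℝ) else 0) / md 3 = r3 c := by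
  rw [sum_boole]
  have e : md 3 = 9 := rfl
  have h0 : ((range 9).filter fun x => Loc 0 3 x).card = 2 := by decide
  have h1 : ((range 9).filter fun x => Loc 1 3 x).card = 3 := by decide
  have h2 : ((range 9).filter fun x => Loc 2 3 x).card = 3 := by decide
  rw [e, r3]
  interval_cases c
  · rw [h0]; norm_num
  · rw [h1]; norm_num
  · rw [h2]; norm_num

theorem locp (c : ℕ) {p : ℕ} (hp : p.Prime) (h3 : p ≠ 3) :
    (∑ x ∈ range (md p), if Loc c p x then (1 : ℝ) else 0) / md p =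
      (if p = 2 then 1 / 2 else 1) * (1 - 1 / (p : ℝ) ^ 2) := by
  rw [sum_boole]
  split_ifs with h2
  · subst h2
    have e : md 2 = 16 := rfl
    have h0 : ((range 16).filter fun x => Loc c 2 x) =
        (range 16).filter fun x => x % 4 = 1 ∨ x % 16 = 8 ∨ x % 16 = 12 :=
      filter_congr fun x _ => by simp [Loc]
    have h1 : ((range 16).filter fun x => x % 4 = 1 ∨ x % 16 = 8 ∨ x % 16 = 12).card = 6 := by
      decide
    rw [e, h0, h1]
    norm_num
  · have e : md p = p ^ 2 := if_neg h2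
    have hp2 : 0 < p ^ 2 := pow_pos hp.pos _
    have h0 : ((range (p ^ 2)).filter fun x => Loc c p x) = (range (p ^ 2)).erase 0 := by
      ext x
      simp only [mem_filter, mem_erase, mem_range, Loc, if_neg h2, if_neg h3]
      constructor
      · rintro ⟨h, h'⟩
        exact ⟨fun e => h' (e ▸ dvd_zero _), h⟩
      · rintro ⟨h, h'⟩
        exact ⟨h', fun hd => absurd (Nat.le_of_dvd (Nat.pos_of_ne_zero h) hd) (not_le.2 h')⟩
    have hp' : (p : ℝ) ≠ 0 := by exact_mod_cast hp.ne_zero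
    rw [e, h0, card_erase_of_mem (mem_range.2 hp2), card_range, Nat.cast_sub hp2]
    push_cast
    field_simp

theorem fund_of {c z D : ℕ} (hz : 3 ≤ z) (hD : 1 < D)
    (h : ∀ p ∈ insert 3 (Pz z), Loc c p D) (h' : ∀ n, z < n → ¬ n ^ 2 ∣ D) :
    Fund D ∧ D % 3 = c := by
  have mem : ∀ p, p.Prime → p ≠ 3 → p ≤ z → p ∈ insert 3 (Pz z) := fun p hp h3 hpz =>
    mem_insert_of_mem (mem_filter.2 ⟨mem_range.2 (by omega), hp, h3⟩)
  have h2 := h 2 (mem 2 Nat.prime_two (by norm_num) (by omega))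
  have h3 := h 3 (mem_insert_self _ _)
  simp only [Loc, if_true, Nat.succ_ne_self, if_false] at h2 h3
  have odd : ∀ p : ℕ, p.Prime → p ≠ 2 → ¬ p * p ∣ D := by
    intro p hp hp2 hd
    by_cases e3 : p = 3
    · subst e3
      omega
    · rw [← sq] at hd
      rcases le_or_gt p z with hpz | hpz
      · have := h p (mem p hp e3 hpz)
        rw [Loc, if_neg hp2, if_neg e3] at this
        exact this hd
      · exact h' p hpz hd
  refine ⟨⟨hD, ?_⟩, h3.1⟩
  rcases h2 with h2 | h2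
  · refine Or.inl ⟨h2, Nat.squarefree_iff_prime_squarefree.2 fun p hp hd => ?_⟩
    by_cases e : p = 2
    · subst e
      omega
    · exact odd p hp e hd
  · refine Or.inr ⟨D / 4, by omega, by omega,
      Nat.squarefree_iff_prime_squarefree.2 fun p hp hd => ?_⟩
    by_cases e : p = 2
    · subst e
      omega
    · exact odd p hp e (hd.trans (Nat.div_dvd_of_dvd (by omega)))

theorem tail {z X : ℕ} (hz : 3 ≤ z) (hX : z ≤ X) :
    (((Ioc z X).biUnion fun n => (Ioc 0 X).filter fun D => n ^ 2 ∣ D).card : ℝ) ≤ X / z := by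
  have h1 : (((Ioc z X).biUnion fun n => (Ioc 0 X).filter fun D => n ^ 2 ∣ D).card : ℝ) ≤
      ∑ n ∈ Ioc z X, (X : ℝ) * ((n : ℝ) ^ 2)⁻¹ := by
    refine (Nat.cast_le.2 card_biUnion_le).trans ?_
    rw [Nat.cast_sum]
    refine sum_le_sum fun n _ => ?_
    rw [Nat.Ioc_filter_dvd_card_eq_div, ← div_eq_mul_inv]
    exact Nat.cast_div_le.trans (le_of_eq (by push_cast; rfl))
  refine h1.trans ?_
  rw [← mul_sum, div_eq_mul_inv]
  refine mul_le_mul_of_nonneg_left ((sum_Ioc_inv_sq_le_sub (by omega) hX).trans ?_)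
    (Nat.cast_nonneg _)
  exact sub_le_self _ (inv_nonneg.2 (Nat.cast_nonneg _))

theorem rowFD : RowFD := by
  classical
  intro c hc z hz
  set T := insert 3 (Pz z) with hT
  have h3 : 3 ∉ Pz z := fun h => (mem_filter.1 h).2.2 rfl
  have hpr : ∀ p ∈ T, p.Prime := fun p hp =>
    (mem_insert.1 hp).elim (fun e => e ▸ Nat.prime_three) fun h => (mem_filter.1 h).2.1
  set u : ℕ → ℕ → ℝ := fun p x => if Loc c p x then 1 else 0 with hu
  have hper : ∀ p x x', x ≡ x' [MOD md p] → u p x = u p x' := fun p x x' hx =>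
    if_congr (loc_per c p x x' hx) rfl rfl
  have h1 := crtS md T (fun p hp => md_pos (hpr p hp)) (fun p hp q hq hpq => by
    obtain ⟨k, hk⟩ := md_pow p
    obtain ⟨l, hl⟩ := md_pow q
    rw [hk, hl]
    exact Nat.Coprime.pow _ _ ((Nat.coprime_primes (hpr p hp) (hpr q hq)).2 hpq)) u
    fun p _ => hper p
  set t := ∑ x ∈ range (∏ p ∈ T, md p), ∏ p ∈ T, u p x with ht
  have hu0 : ∀ x, 0 ≤ ∏ p ∈ T, u p x := fun x =>
    prod_nonneg fun p _ => by simp only [hu]; split_ifs <;> norm_num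
  have hρ : t / ((∏ p ∈ T, md p : ℕ) : ℝ) = r3 c / 2 * PP z := by
    have h2 : 2 ∈ Pz z := mem_filter.2 ⟨mem_range.2 (by omega), Nat.prime_two, by norm_num⟩
    rw [h1, Nat.cast_prod, ← prod_div_distrib, hT, prod_insert h3, loc3 hc,
      prod_congr rfl fun p hp => locp c (mem_filter.1 hp).2.1 (mem_filter.1 hp).2.2,
      prod_mul_distrib, prod_ite_eq' (Pz z) 2 fun _ => (1 / 2 : ℝ), if_pos h2, PP]
    ring
  have hρ0 : 0 ≤ r3 c / 2 * PP z :=
    hρ ▸ div_nonneg (sum_nonneg fun x _ => hu0 x) (Nat.cast_nonneg _)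
  have hz' : (0 : ℝ) < z := by exact_mod_cast (by omega : 0 < z)
  filter_upwards [eventually_ge_atTop z,
    tendsto_natCast_atTop_atTop.eventually (eventually_ge_atTop ((t + 2) * z))] with X hX hX'
  have h2 := per_err (∏ p ∈ T, md p) (prod_pos fun p hp => md_pos (hpr p hp))
    (fun x => ∏ p ∈ T, u p x)
    (fun x x' hx => prod_congr rfl fun s hs => hper s _ _ (hx.of_dvd (dvd_prod_of_mem _ hs)))
    hu0 (X + 1)
  rw [← ht, hρ] at h2
  have h4 : (((range (X + 1)).filter fun D => ∀ p ∈ T, Loc c p D).card : ℝ) =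
      ∑ x ∈ range (X + 1), ∏ p ∈ T, u p x := by
    rw [card_filter]
    push_cast
    exact sum_congr rfl fun x _ => by rw [hu, prod_boole]
  have h5 : ((range (X + 1)).filter fun D => ∀ p ∈ T, Loc c p D) ⊆
      ((range (X + 1)).filter fun D => Fund D ∧ D % 3 = c) ∪
        (((Ioc z X).biUnion fun n => (Ioc 0 X).filter fun D => n ^ 2 ∣ D) ∪ range 2) := by
    intro D hD
    obtain ⟨hD1, hD2⟩ := mem_filter.1 hD
    by_contra hn
    rw [mem_union, mem_union, not_or, not_or, mem_range] at hn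
    have hD3 := mem_range.1 hD1
    refine hn.1 (mem_filter.2 ⟨hD1, fund_of hz (by omega) hD2 fun n hn1 hn2 => hn.2.1 ?_⟩)
    have := Nat.le_of_dvd (by omega) hn2
    refine mem_biUnion.2 ⟨n, mem_Ioc.2 ⟨hn1, ?_⟩, mem_filter.2 ⟨mem_Ioc.2 ⟨?_, ?_⟩, hn2⟩⟩
    · nlinarith
    · omega
    · omega
  have h6 := (card_le_card h5).trans ((card_union_le _ _).trans
    (Nat.add_le_add_left (card_union_le _ _) _))
  have h7 := (Nat.cast_le (α := ℝ)).2 h6
  rw [h4, card_range] at h7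
  push_cast at h7 h2
  have h8 := tail hz hX
  have h9 : t + 2 ≤ X / z := (le_div_iff₀ hz').2 hX'
  have h10 : (r3 c / 2 * PP z - 2 / z) * X = X * (r3 c / 2 * PP z) - 2 * (X / z) := by ring
  rw [h10]
  linarith

end Pool.Agent.MP_1246c0_nt.H56
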